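import Mathlib
import Pool.Agent.W474.Ver.Chain

/-!
Identification of the Koszul cohomology groups `K_{p,q}` of the Veronese embeddings with the
homology of a region of cells.
-/

namespace Pool.Agent.W474.Ver

open MvPolynomial Finset
open Pool.Agent.H940R2 (CC res DS ZZ BB HH Lowers Good Ac Split IsoH sg DK dg DK_lowers DK_DK Conv
  cone_ac DK_apply dg_mk DS_apply_mem DS_apply_notMem DS_mem_CC mk_ZZ ZZ_eq quot_equiv)

/-- the exponent vectors of the monomials of degree `d` -/
noncomputable def exd (n d : ℕ) : Fin (h0 n d) → Lat n := fun i c => ((mon n d i).1 c : ℤ)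

lemma expo_exd {n d : ℕ} : Expo (d : ℤ) (exd n d) where
  nonneg := fun i c => by simp [exd]
  sum := fun i => by
    simp only [exd]
    exact_mod_cast (mon n d i).2
  vert := by
    intro a
    let u : Mon n d := ⟨Finsupp.single a d, by simp [Finsupp.single_apply]⟩
    refine ⟨(mon n d).symm u, ?_⟩
    intro a' ha'
    have e : mon n d ((mon n d).symm u) = u := Equiv.apply_symm_apply _ _
    simp only [exd, e]
    simp [u, Finsupp.single_apply, Ne.symm ha']

/-- natural exponents -/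
noncomputable def nt {n : ℕ} (u : Lat n) : Fin (n + 1) →₀ ℕ :=
  Finsupp.equivFunOnFinite.symm (fun c => (u c).toNat)

@[simp] lemma nt_apply {n : ℕ} (u : Lat n) (c : Fin (n + 1)) : nt u c = (u c).toNat := rfl

open Classical in
/-- passing to coefficients -/
noncomputable def TT (n d : ℕ) :
    (Finset (Fin (h0 n d)) → Poly n) →ₗ[ℂ] (Finset (Fin (h0 n d)) × Lat n → ℂ) where
  toFun f := fun x => if ∀ c, 0 ≤ x.2 c then coeff (nt x.2) (f x.1) else 0
  map_add' := by
    intro f g
    funext x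
    by_cases h : ∀ c, 0 ≤ x.2 c
    · simp only [if_pos h, Pi.add_apply, coeff_add]
    · simp only [if_neg h, Pi.add_apply, add_zero]
  map_smul' := by
    intro a f
    funext x
    by_cases h : ∀ c, 0 ≤ x.2 c
    · simp only [if_pos h, Pi.smul_apply, coeff_smul, RingHom.id_apply]
    · simp only [if_neg h, Pi.smul_apply, smul_zero]

variable {n d : ℕ}

lemma TT_pos {f : Finset (Fin (h0 n d)) → Poly n} {F : Finset (Fin (h0 n d))} {u : Lat n}
    (h : ∀ c, 0 ≤ u c) : TT n d f (F, u) = coeff (nt u) (f F) := by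
  simp only [TT, LinearMap.coe_mk, AddHom.coe_mk, if_pos h]

lemma TT_neg {f : Finset (Fin (h0 n d)) → Poly n} {F : Finset (Fin (h0 n d))} {u : Lat n}
    (h : ¬ (∀ c, 0 ≤ u c)) : TT n d f (F, u) = 0 := by
  simp only [TT, LinearMap.coe_mk, AddHom.coe_mk, if_neg h]

/-- integer exponents -/
def zt (u : Fin (n + 1) →₀ ℕ) : Lat n := fun c => (u c : ℤ)

@[simp] lemma nt_zt (u : Fin (n + 1) →₀ ℕ) : nt (zt u) = u := by
  ext c
  simp [zt]

lemma zt_nt {u : Lat n} (h : ∀ c, 0 ≤ u c) : zt (nt u) = u := by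
  funext c
  simp [zt, h c]

lemma TT_inj : Function.Injective (TT n d) := by
  rw [injective_iff_map_eq_zero]
  intro f hf
  funext F
  ext u
  have h1 := congrFun hf (F, zt u)
  rw [TT_pos (fun c => by simp [zt]), nt_zt] at h1
  rw [h1]
  simp

lemma kosz_apply (f : Finset (Fin (h0 n d)) → Poly n) (G : Finset (Fin (h0 n d))) :
    kosz n d f G = ∑ b ∈ Gᶜ, (-1) ^ (G.filter (fun c => c < b)).card * bas n d b *
      f (insert b G) := rfl

lemma coeff_kosz (f : Finset (Fin (h0 n d)) → Poly n) (G : Finset (Fin (h0 n d)))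
    (u : Fin (n + 1) →₀ ℕ) :
    coeff u (kosz n d f G) = ∑ b ∈ Gᶜ, (-1 : ℂ) ^ (G.filter (fun c => c < b)).card *
      (if (mon n d b).1 ≤ u then coeff (u - (mon n d b).1) (f (insert b G)) else 0) := by
  rw [kosz_apply, coeff_sum]
  refine Finset.sum_congr rfl fun b _ => ?_
  have : ((-1 : Poly n) ^ (G.filter (fun c => c < b)).card * bas n d b * f (insert b G)) =
      C ((-1 : ℂ) ^ (G.filter (fun c => c < b)).card) * (bas n d b * f (insert b G)) := by
    simp [mul_assoc]
  rw [this, coeff_C_mul, bas, coeff_monomial_mul', one_mul]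

lemma DK_TT (f : Finset (Fin (h0 n d)) → Poly n) (G : Finset (Fin (h0 n d)))
    (u : Lat n) : DK ℂ (exd n d) (TT n d f) (G, u) = TT n d (kosz n d f) (G, u) := by
  rw [DK_apply]
  by_cases hu : ∀ c, 0 ≤ u c
  · rw [TT_pos hu, coeff_kosz]
    refine Finset.sum_congr rfl fun i _ => ?_
    rw [sg]
    congr 1
    by_cases h : (mon n d i).1 ≤ nt u
    · rw [if_pos h]
      have h' : ∀ c, 0 ≤ (u - exd n d i) c := by
        intro c
        have := h c
        rw [nt_apply] at this
        simp only [Pi.sub_apply, exd]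
        have := hu c
        omega
      rw [TT_pos h']
      congr 1
      ext c
      simp only [nt_apply, Pi.sub_apply, exd, Finsupp.tsub_apply]
      have := hu c
      omega
    · rw [if_neg h, TT_neg]
      intro h'
      apply h
      intro c
      have := h' c
      simp only [Pi.sub_apply, exd] at this
      rw [nt_apply]
      omega
  · rw [TT_neg hu]
    apply Finset.sum_eq_zero
    intro i _
    rw [TT_neg, mul_zero]
    intro h'
    apply hu
    intro c
    have h1 := h' c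
    simp only [Pi.sub_apply, exd] at h1
    omega

lemma mem_Sec {e : ℤ} {f : Poly n} : f ∈ Sec n e ↔ ∀ u : Fin (n + 1) →₀ ℕ, coeff u f ≠ 0 →
    (∑ a, (u a : ℤ)) = e := Iff.rfl

/-- support of the coefficient functions -/
lemma TT_supp {f : Finset (Fin (h0 n d)) → Poly n} {t : ℤ}
    (hf : ∀ F, f F ∈ Sec n ((t - F.card) * d)) (x) (hx : TT n d f x ≠ 0) :
    x ∈ Sin (Fin (h0 n d)) n (d : ℤ) t ∧ f x.1 ≠ 0 := by
  obtain ⟨F, u⟩ := x
  by_cases h : ∀ c, 0 ≤ u c
  · rw [TT_pos h] at hx
    have h1 := hf F (nt u) hx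
    refine ⟨⟨?_, h⟩, ?_⟩
    · have e : ∀ c, ((nt u c : ℕ) : ℤ) = u c := by
        intro c
        rw [nt_apply]
        exact Int.toNat_of_nonneg (h c)
      simp only [e] at h1
      simp only [Base, Set.mem_ofPred_eq]
      exact h1
    · intro h0
      simp only at h0
      rw [h0] at hx
      simp at hx
  · exact absurd (TT_neg h) hx

lemma chains_Sec {p : ℕ} {m : ℤ} {f : Finset (Fin (h0 n d)) → Poly n} (hf : f ∈ chains n d p m)
    (F : Finset (Fin (h0 n d))) : f F ∈ Sec n (((p + m : ℤ) - F.card) * d) := by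
  by_cases h : F.card = p
  · rw [h]
    have : ((p + m : ℤ) - p) = m := by ring
    rw [this]
    exact hf.1 F
  · rw [hf.2 F h]
    exact Submodule.zero_mem _

lemma kosz_Sec {t : ℤ} {f : Finset (Fin (h0 n d)) → Poly n}
    (hf : ∀ F, f F ∈ Sec n ((t - F.card) * d)) (F : Finset (Fin (h0 n d))) :
    kosz n d f F ∈ Sec n ((t - F.card) * d) := by
  rw [mem_Sec]
  intro u hu
  rw [coeff_kosz] at hu
  obtain ⟨b, hb, hb'⟩ := Finset.exists_ne_zero_of_sum_ne_zero hu
  have h1 := right_ne_zero_of_mul hb'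
  by_cases hle : (mon n d b).1 ≤ u
  · rw [if_pos hle] at h1
    have h2 := hf _ _ h1
    rw [Finset.card_insert_of_notMem (by simpa using hb)] at h2
    have e : ∀ c, ((u c : ℕ) : ℤ) = (((u - (mon n d b).1) c : ℕ) : ℤ) +
        ((mon n d b).1 c : ℤ) := by
      intro c
      have := hle c
      rw [Finsupp.tsub_apply]
      omega
    have e1 : (∑ a, ((mon n d b).1 a : ℤ)) = d := by
      exact_mod_cast (mon n d b).2
    simp only [e, Finset.sum_add_distrib, e1, h2]
    push_cast
    ring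
  · rw [if_neg hle] at h1
    exact absurd rfl h1

lemma kosz_card {p : ℕ} {f : Finset (Fin (h0 n d)) → Poly n} (hf : ∀ F, F.card ≠ p + 1 → f F = 0)
    (F : Finset (Fin (h0 n d))) (hF : F.card ≠ p) : kosz n d f F = 0 := by
  rw [kosz_apply]
  apply Finset.sum_eq_zero
  intro b hb
  rw [hf, mul_zero]
  rw [Finset.card_insert_of_notMem (by simpa using hb)]
  omega

lemma TT_CC {p : ℕ} {m : ℤ} {f : Finset (Fin (h0 n d)) → Poly n} (hf : f ∈ chains n d p m) :
    TT n d f ∈ CC dg (Sin (Fin (h0 n d)) n (d : ℤ) (p + m)) p := by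
  intro x hx
  have h1 := TT_supp (fun F => chains_Sec hf F) x hx
  refine ⟨h1.1, ?_⟩
  obtain ⟨F, u⟩ := x
  rw [dg_mk]
  by_contra h
  exact h1.2 (hf.2 _ h)

/-- the differential of the coefficient function -/
lemma DS_TT {t : ℤ} {f : Finset (Fin (h0 n d)) → Poly n}
    (hf : ∀ F, f F ∈ Sec n ((t - F.card) * d)) :
    DS (DK ℂ (exd n d)) (Sin (Fin (h0 n d)) n (d : ℤ) t) (TT n d f) = TT n d (kosz n d f) := by
  funext x
  by_cases hx : x ∈ Sin (Fin (h0 n d)) n (d : ℤ) t
  · rw [DS_apply_mem hx]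
    exact DK_TT f x.1 x.2
  · rw [DS_apply_notMem hx]
    symm
    by_contra h
    exact hx (TT_supp (fun F => kosz_Sec hf F) x h).1

/-- every function on the region comes from polynomials -/
lemma TT_surj {p : ℕ} {m : ℤ} {g : Finset (Fin (h0 n d)) × Lat n → ℂ}
    (hg : g ∈ CC dg (Sin (Fin (h0 n d)) n (d : ℤ) (p + m)) p) :
    ∃ f ∈ chains n d p m, TT n d f = g := by
  classical
  let N : Fin (n + 1) →₀ ℕ := Finsupp.equivFunOnFinite.symm (fun _ => (m * d).toNat)
  let f : Finset (Fin (h0 n d)) → Poly n := fun F =>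
    ∑ u ∈ Finset.Iic N, monomial u (g (F, zt u))
  have key : ∀ F : Finset (Fin (h0 n d)), ∀ u : Fin (n + 1) →₀ ℕ, g (F, zt u) ≠ 0 →
      (∑ a, (u a : ℤ)) = m * d ∧ F.card = p := by
    intro F u h
    have h1 := hg _ h
    have h2 : F.card = p := h1.2
    refine ⟨?_, h2⟩
    have h3 := h1.1.1
    simp only [Base, Set.mem_ofPred_eq, zt, h2] at h3
    have : ((p + m : ℤ) - p) = m := by ring
    rw [this] at h3
    exact h3
  have hcoeff : ∀ F : Finset (Fin (h0 n d)), ∀ u : Fin (n + 1) →₀ ℕ,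
      coeff u (f F) = g (F, zt u) := by
    intro F u
    simp only [f, coeff_sum, coeff_monomial]
    rw [Finset.sum_ite_eq']
    split_ifs with h
    · rfl
    · by_contra hne
      apply h
      rw [Finset.mem_Iic]
      obtain ⟨h1, _⟩ := key F u (fun h' => hne h'.symm)
      intro c
      change u c ≤ (m * d).toNat
      have : (u c : ℤ) ≤ m * d := by
        rw [← h1]
        exact Finset.single_le_sum (f := fun a => (u a : ℤ))
          (fun _ _ => Int.natCast_nonneg _) (Finset.mem_univ c)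
      omega
  refine ⟨f, ⟨?_, ?_⟩, ?_⟩
  · intro F u hu
    rw [hcoeff] at hu
    exact (key F u hu).1
  · intro F hF
    ext u
    rw [hcoeff, coeff_zero]
    by_contra h
    exact hF (key F u h).2
  · funext x
    obtain ⟨F, u⟩ := x
    by_cases h : ∀ c, 0 ≤ u c
    · rw [TT_pos h, hcoeff, zt_nt h]
    · rw [TT_neg h]
      by_contra hne
      have h1 := hg _ (fun h' => hne h'.symm)
      exact h h1.1.2

/-- The Koszul cohomology group is the homology of the region `Sin`. -/
theorem ident (n d p : ℕ) (q : ℤ) :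
    Nonempty ((cyc n d p q ⧸ (bdy n d p q).submoduleOf (cyc n d p q)) ≃ₗ[ℂ]
      HH dg (DK ℂ (exd n d)) (Sin (Fin (h0 n d)) n (d : ℤ) (p + q)) p) := by
  refine quot_equiv _ _ _ _ ((TT n d).comp (Submodule.subtype _)) ?_ ?_ ?_
  · rintro ⟨z, hz⟩
    refine mk_ZZ (TT_CC hz.1) ?_
    change DS _ _ (TT n d z) = 0
    rw [DS_TT (fun F => chains_Sec hz.1 F), (LinearMap.mem_ker.mp hz.2), map_zero]
  · intro w hw
    obtain ⟨f, hf, rfl⟩ := TT_surj hw.1
    refine ⟨⟨f, hf, ?_⟩, 0, Submodule.zero_mem _, Submodule.zero_mem _, ?_⟩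
    · have h1 := ZZ_eq hw
      rw [DS_TT (fun F => chains_Sec hf F)] at h1
      exact LinearMap.mem_ker.mpr (TT_inj (by rw [h1, map_zero]))
    · rw [sub_zero]; rfl
  · rintro ⟨z, hz⟩
    have et : ((p + 1 : ℕ) : ℤ) + (q - 1) = p + q := by push_cast; ring
    constructor
    · rintro ⟨y, hy, hyz⟩
      have hy' : y ∈ CC dg (Sin (Fin (h0 n d)) n (d : ℤ) (((p + 1 : ℕ) : ℤ) + (q - 1)))
          (p + 1) := by
        rw [et]; exact hy
      obtain ⟨f, hf, rfl⟩ := TT_surj hy'
      have h1 := fun F => chains_Sec hf F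
      rw [et] at h1
      rw [DS_TT h1] at hyz
      refine ⟨f, hf, ?_⟩
      change kosz n d f = z
      apply TT_inj
      exact hyz
    · rintro ⟨f, hf, hfz⟩
      have h1 := fun F => chains_Sec hf F
      rw [et] at h1
      have hy' := TT_CC hf
      rw [et] at hy'
      refine ⟨TT n d f, hy', ?_⟩
      rw [DS_TT h1]
      change TT n d (kosz n d f) = TT n d z
      rw [hfz]

/-- `K_{p,q}` as the homology of the region `Sout`. -/
theorem kpq_eq (n d p : ℕ) (q : ℤ) :
    kpq n d p q = Module.finrank ℂ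
      (HH dg (DK ℂ (exd n d)) (Sout (Fin (h0 n d)) n (d : ℤ) (p + q)) (p + (n + 1))) := by
  obtain ⟨e1⟩ := ident n d p q
  obtain ⟨e2⟩ := chain ℂ (expo_exd (n := n) (d := d)) ((p : ℤ) + q) p
  exact (e1.trans e2).finrank_eq

end Pool.Agent.W474.Ver
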