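import Mathlib
import Pool.Agent.W474.Ver.Interior

/-!
Leading terms of cycles with values in the interior monomials.
-/

namespace Pool.Agent.W474.Ver

open MvPolynomial Finset
open Pool.Agent.H940R2 (sg sg_anti sg_mul_self sg_ne_zero)

variable {n d : ℕ}

lemma kosz_apply' (f : Finset (Fin (h0 n d)) → Poly n) (G : Finset (Fin (h0 n d))) :
    kosz n d f G = ∑ b ∈ Gᶜ, sg ℂ G b • (bas n d b * f (insert b G)) := by
  rw [kosz_apply]
  refine Finset.sum_congr rfl fun b _ => ?_
  rw [sg, MvPolynomial.smul_eq_C_mul, map_pow, map_neg, map_one, mul_assoc]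

/-- the weight of a set -/
def wt {J : Type*} (pos : J → ℕ) (B : Finset J) : ℕ := ∑ i ∈ B, 2 ^ pos i

lemma wt_inj {J : Type*} {pos : J → ℕ} (hp : Function.Injective pos) :
    Function.Injective (wt pos) := by
  classical
  intro B B' h
  have h1 : ∀ C : Finset J, wt pos C = ∑ k ∈ C.image pos, 2 ^ k := by
    intro C
    rw [Finset.sum_image (fun _ _ _ _ h => hp h)]
    rfl
  rw [h1, h1] at h
  exact Finset.image_injective hp (geomSum_injective le_rfl h)

lemma wt_insert {J : Type*} [DecidableEq J] (pos : J → ℕ) {B : Finset J} {v : J} (h : v ∉ B) :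
    wt pos (insert v B) = 2 ^ pos v + wt pos B := by
  rw [wt, Finset.sum_insert h, wt]

lemma wt_lt {J : Type*} {pos : J → ℕ} (hp : Function.Injective pos) {B : Finset J} {m : ℕ}
    (hB : ∀ b ∈ B, pos b < m) : wt pos B < 2 ^ m := by
  classical
  have h1 : wt pos B = ∑ k ∈ B.image pos, 2 ^ k := by
    rw [Finset.sum_image (fun _ _ _ _ h => hp h)]
    rfl
  rw [h1]
  apply Nat.geomSum_lt le_rfl
  intro k hk
  rw [Finset.mem_image] at hk
  obtain ⟨i, hi, rfl⟩ := hk
  exact hB i hi

/-- the filtration by weight -/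
noncomputable def FF (pos : Fin (h0 n d) → ℕ) (p m : ℕ) :
    Submodule ℂ (Finset (Fin (h0 n d)) → Poly n) where
  carrier := {f | f ∈ KK n d p ∧ ∀ B, m ≤ wt pos B → f B = 0}
  add_mem' := by
    rintro f g ⟨hf, hf'⟩ ⟨hg, hg'⟩
    refine ⟨Submodule.add_mem _ hf hg, fun F hF => ?_⟩
    rw [Pi.add_apply, hf' F hF, hg' F hF, add_zero]
  zero_mem' := ⟨Submodule.zero_mem _, fun F _ => rfl⟩
  smul_mem' := by
    rintro c f ⟨hf, hf'⟩
    refine ⟨Submodule.smul_mem _ c hf, fun F hF => ?_⟩
    rw [Pi.smul_apply, hf' F hF, smul_zero]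

/-- the space of leading coefficients -/
noncomputable def Ld (pos : Fin (h0 n d) → ℕ) (B : Finset (Fin (h0 n d))) :
    Submodule ℂ (Poly n) :=
  (FF pos B.card (wt pos B + 1)).map (LinearMap.proj B)

/-- the exponents of the interior monomials -/
noncomputable def UU (n d : ℕ) : Finset (Fin (n + 1) →₀ ℕ) :=
  (Finset.finsuppAntidiag (Finset.univ : Finset (Fin (n + 1))) d).filter (fun u => ∀ c, 1 ≤ u c)

lemma mem_UU {u : Fin (n + 1) →₀ ℕ} : u ∈ UU n d ↔ (∑ a, u a) = d ∧ ∀ c, 1 ≤ u c := by
  rw [UU, Finset.mem_filter, Finset.mem_finsuppAntidiag]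
  constructor
  · rintro ⟨⟨h1, _⟩, h2⟩
    exact ⟨h1, h2⟩
  · rintro ⟨h1, h2⟩
    exact ⟨⟨h1, Finset.subset_univ _⟩, h2⟩

lemma M0_finite (n d : ℕ) : FiniteDimensional ℂ (M0 n d) := by
  classical
  have h : M0 n d ≤ Submodule.span ℂ
      (((UU n d).image (fun u => (monomial u (1 : ℂ) : Poly n)) : Finset (Poly n)) :
        Set (Poly n)) := by
    intro f hf
    rw [← f.support_sum_monomial_coeff]
    refine Submodule.sum_mem _ fun u hu => ?_
    have h1 := hf u (by simpa [mem_support_iff] using hu)
    have e : monomial u (coeff u f) = (coeff u f) • (monomial u (1 : ℂ) : Poly n) := by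
      rw [smul_monomial, smul_eq_mul, mul_one]
    rw [e]
    refine Submodule.smul_mem _ _ (Submodule.subset_span ?_)
    rw [Finset.coe_image]
    exact ⟨u, mem_UU.mpr h1, rfl⟩
  exact Submodule.finiteDimensional_of_le h

lemma KK_finite (n d p : ℕ) : FiniteDimensional ℂ (KK n d p) := by
  have := M0_finite n d
  let Φ : KK n d p →ₗ[ℂ] (Finset (Fin (h0 n d)) → M0 n d) :=
    { toFun := fun f B => ⟨f.1 B, f.2.1 B⟩
      map_add' := fun _ _ => rfl
      map_smul' := fun _ _ => rfl }
  refine FiniteDimensional.of_injective Φ ?_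
  intro f g h
  apply Subtype.ext
  funext B
  exact congrArg Subtype.val (congrFun h B)

variable {pos : Fin (h0 n d) → ℕ}

lemma FF_le (p m : ℕ) : FF pos p m ≤ KK n d p := fun _ hf => hf.1

lemma FF_finite (pos : Fin (h0 n d) → ℕ) (p m : ℕ) : FiniteDimensional ℂ (FF pos p m) := by
  have := KK_finite n d p
  exact Submodule.finiteDimensional_of_le (FF_le p m)

lemma finrank_FF (hpos : Function.Injective pos) (p m : ℕ) : Module.finrank ℂ (FF pos p m) =
    ∑ B ∈ (Finset.powersetCard p (univ : Finset (Fin (h0 n d)))).filter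
      (fun B => wt pos B < m), Module.finrank ℂ (Ld pos B) := by
  induction m with
  | zero =>
    have : FF pos p 0 = ⊥ := by
      rw [eq_bot_iff]
      intro f hf
      rw [Submodule.mem_bot]
      funext B
      exact hf.2 B (Nat.zero_le _)
    rw [this, finrank_bot]
    simp
  | succ m ih =>
    by_cases hB : ∃ B ∈ Finset.powersetCard p (univ : Finset (Fin (h0 n d))), wt pos B = m
    · obtain ⟨B, hB, hBn⟩ := hB
      have hfilter : (Finset.powersetCard p univ).filter (fun B => wt pos B < m + 1) =
          insert B ((Finset.powersetCard p univ).filter (fun B => wt pos B < m)) := by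
        ext C
        simp only [Finset.mem_filter, Finset.mem_insert]
        constructor
        · rintro ⟨h1, h2⟩
          rcases Nat.lt_succ_iff_lt_or_eq.mp h2 with h3 | h3
          · exact Or.inr ⟨h1, h3⟩
          · left
            apply wt_inj hpos
            rw [h3, hBn]
        · rintro (rfl | ⟨h1, h2⟩)
          · exact ⟨hB, by omega⟩
          · exact ⟨h1, by omega⟩
      have hcard : B.card = p := (Finset.mem_powersetCard.mp hB).2
      rw [hfilter, Finset.sum_insert (by simp [hBn]), ← ih]
      have hfd := FF_finite pos p (m + 1)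
      let g : FF pos p (m + 1) →ₗ[ℂ] Poly n := (LinearMap.proj B).comp (Submodule.subtype _)
      have h1 := LinearMap.finrank_range_add_finrank_ker g
      have h2 : LinearMap.range g = Ld pos B := by
        rw [LinearMap.range_comp, Submodule.range_subtype, Ld, hcard, hBn]
      have h3 : Module.finrank ℂ (LinearMap.ker g) = Module.finrank ℂ (FF pos p m) := by
        have hle : FF pos p m ≤ FF pos p (m + 1) :=
          fun f hf => ⟨hf.1, fun C hC => hf.2 C (by omega)⟩
        have h4 : LinearMap.ker g = (FF pos p m).submoduleOf (FF pos p (m + 1)) := by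
          ext ⟨f, hf⟩
          rw [LinearMap.mem_ker, Submodule.submoduleOf, Submodule.mem_comap]
          change f B = 0 ↔ f ∈ FF pos p m
          constructor
          · intro hfB
            refine ⟨hf.1, fun C hC => ?_⟩
            rcases Nat.lt_or_eq_of_le hC with h5 | h5
            · exact hf.2 C h5
            · have : C = B := by
                apply wt_inj hpos
                rw [← h5, hBn]
              rw [this, hfB]
          · intro h5
            exact h5.2 B (by omega)
        rw [h4]
        exact (Submodule.submoduleOfEquivOfLe hle).finrank_eq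
      rw [h2, h3] at h1
      rw [← h1]
    · have hfilter : (Finset.powersetCard p univ).filter
          (fun B : Finset (Fin (h0 n d)) => wt pos B < m + 1) =
          ((Finset.powersetCard p univ).filter (fun B => wt pos B < m)) := by
        ext C
        simp only [Finset.mem_filter]
        constructor
        · rintro ⟨h1, h2⟩
          refine ⟨h1, ?_⟩
          by_contra h3
          exact hB ⟨C, h1, by omega⟩
        · rintro ⟨h1, h2⟩
          exact ⟨h1, by omega⟩
      rw [hfilter, ← ih]
      have : FF pos p (m + 1) = FF pos p m := by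
        ext f
        constructor
        · intro hf
          refine ⟨hf.1, fun C hC => ?_⟩
          rcases Nat.lt_or_eq_of_le hC with h5 | h5
          · exact hf.2 C h5
          · by_contra hne
            apply hB
            refine ⟨C, ?_, h5.symm⟩
            rw [Finset.mem_powersetCard]
            refine ⟨Finset.subset_univ _, ?_⟩
            by_contra h6
            exact hne (hf.1.2.1 C h6)
        · intro hf
          exact ⟨hf.1, fun C hC => hf.2 C (by omega)⟩
      rw [this]

/-- dimension of the space of cycles as a sum over leading terms -/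
theorem finrank_KK (hpos : Function.Injective pos) (p : ℕ) : Module.finrank ℂ (KK n d p) =
    ∑ B ∈ Finset.powersetCard p (univ : Finset (Fin (h0 n d))),
      Module.finrank ℂ (Ld pos B) := by
  let N := ∑ B : Finset (Fin (h0 n d)), wt pos B + 1
  have hN : ∀ B : Finset (Fin (h0 n d)), wt pos B < N := by
    intro B
    have h : wt pos B ≤ ∑ B : Finset (Fin (h0 n d)), wt pos B :=
      Finset.single_le_sum (f := fun B : Finset (Fin (h0 n d)) => wt pos B)
        (fun _ _ => Nat.zero_le _) (Finset.mem_univ B)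
    omega
  have h1 : FF pos p N = KK n d p := by
    apply le_antisymm (FF_le p N)
    intro f hf
    exact ⟨hf, fun B hB => absurd hB (not_le.mpr (hN B))⟩
  rw [← h1, finrank_FF hpos]
  congr 1
  apply Finset.filter_true_of_mem
  intro B _
  exact hN B

/-- contraction -/
noncomputable def ctr (v : Fin (h0 n d)) :
    (Finset (Fin (h0 n d)) → Poly n) →ₗ[ℂ] (Finset (Fin (h0 n d)) → Poly n) where
  toFun f := fun G => if v ∈ G then 0 else sg ℂ G v • f (insert v G)
  map_add' := by
    intro f g
    funext G
    by_cases h : v ∈ G <;> simp [h]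
  map_smul' := by
    intro c f
    funext G
    by_cases h : v ∈ G
    · simp [h]
    · simp only [if_neg h, Pi.smul_apply, RingHom.id_apply]
      rw [smul_comm]

lemma ctr_apply (v : Fin (h0 n d)) (f : Finset (Fin (h0 n d)) → Poly n)
    (G : Finset (Fin (h0 n d))) :
    ctr v f G = if v ∈ G then 0 else sg ℂ G v • f (insert v G) := rfl

lemma kosz_ctr (v : Fin (h0 n d)) {f : Finset (Fin (h0 n d)) → Poly n} (hf : kosz n d f = 0) :
    kosz n d (ctr v f) = 0 := by
  funext G
  rw [kosz_apply', Pi.zero_apply]
  by_cases hv : v ∈ G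
  · apply Finset.sum_eq_zero
    intro b _
    rw [ctr_apply, if_pos (Finset.mem_insert_of_mem hv), mul_zero, smul_zero]
  · have h1 : Gᶜ = insert v (insert v G)ᶜ := by
      ext c
      simp only [Finset.mem_compl, Finset.mem_insert, not_or]
      by_cases hc : c = v
      · subst hc; simp [hv]
      · simp [hc]
    rw [h1, Finset.sum_insert (by simp), ctr_apply, if_pos (Finset.mem_insert_self _ _), mul_zero,
      smul_zero, zero_add]
    have h2 : kosz n d f (insert v G) = 0 := by rw [hf]; rfl
    rw [kosz_apply'] at h2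
    have h3 : ∑ b ∈ (insert v G)ᶜ, sg ℂ G b • (bas n d b * ctr v f (insert b G)) =
        -(sg ℂ G v) • ∑ b ∈ (insert v G)ᶜ, sg ℂ (insert v G) b •
          (bas n d b * f (insert b (insert v G))) := by
      rw [Finset.smul_sum]
      refine Finset.sum_congr rfl fun b hb => ?_
      simp only [Finset.mem_compl, Finset.mem_insert, not_or] at hb
      rw [ctr_apply, if_neg]
      · have h4 := sg_anti (K := ℂ) G hv hb.2 (Ne.symm hb.1)
        rw [Finset.insert_comm v b G, mul_smul_comm, smul_smul, smul_smul]
        congr 1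
        linear_combination h4
      · simp only [Finset.mem_insert, not_or]
        exact ⟨Ne.symm hb.1, hv⟩
    rw [h3, h2, smul_zero]

lemma ctr_mem {p : ℕ} (v : Fin (h0 n d)) {f : Finset (Fin (h0 n d)) → Poly n}
    (hf : f ∈ KK n d (p + 1)) : ctr v f ∈ KK n d p := by
  refine ⟨?_, ?_, kosz_ctr v hf.2.2⟩
  · intro B
    rw [ctr_apply]
    split_ifs
    · exact Submodule.zero_mem _
    · exact Submodule.smul_mem _ _ (hf.1 _)
  · intro B hB
    rw [ctr_apply]
    split_ifs with h
    · rfl
    · rw [hf.2.1, smul_zero]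
      rw [Finset.card_insert_of_notMem h]
      omega

/-- monotonicity of the spaces of leading coefficients -/
lemma Ld_le {B : Finset (Fin (h0 n d))} {v : Fin (h0 n d)} (hv : v ∈ B) :
    Ld pos B ≤ Ld pos (B.erase v) := by
  rintro m ⟨f, hf, rfl⟩
  obtain ⟨G, hvG, rfl⟩ : ∃ G, v ∉ G ∧ insert v G = B :=
    ⟨B.erase v, Finset.notMem_erase v B, Finset.insert_erase hv⟩
  rw [Finset.erase_insert hvG]
  rw [Finset.card_insert_of_notMem hvG] at hf
  have h1 : ctr v f ∈ FF pos G.card (wt pos G + 1) := by
    refine ⟨ctr_mem v hf.1, ?_⟩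
    intro C hC
    rw [ctr_apply]
    split_ifs with h
    · rfl
    · rw [hf.2, smul_zero]
      rw [wt_insert pos hvG, wt_insert pos h]
      omega
  refine ⟨sg ℂ G v • ctr v f, Submodule.smul_mem _ _ h1, ?_⟩
  rw [map_smul]
  change sg ℂ G v • ctr v f G = f (insert v G)
  rw [ctr_apply, if_neg hvG, smul_smul, sg_mul_self, one_smul]

lemma Ld_finite (pos : Fin (h0 n d) → ℕ) (B : Finset (Fin (h0 n d))) :
    FiniteDimensional ℂ (Ld pos B) := by
  have := FF_finite pos B.card (wt pos B + 1)
  rw [Ld]
  infer_instance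

lemma Ld_M0 {B : Finset (Fin (h0 n d))} {m : Poly n} (hm : m ∈ Ld pos B) : m ∈ M0 n d := by
  obtain ⟨f, hf, rfl⟩ := hm
  exact hf.1.1 B

/-! ### the torus grading -/

/-- total exponent of a set of monomials -/
noncomputable def sm (B : Finset (Fin (h0 n d))) : Fin (n + 1) →₀ ℕ := ∑ b ∈ B, (mon n d b).1

lemma sm_insert {B : Finset (Fin (h0 n d))} {v : Fin (h0 n d)} (h : v ∉ B) :
    sm (insert v B) = (mon n d v).1 + sm B := by
  rw [sm, Finset.sum_insert h, sm]

open Classical in
/-- the component of total degree `β` for the torus grading -/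
noncomputable def gr (β : Fin (n + 1) →₀ ℕ) (f : Finset (Fin (h0 n d)) → Poly n) :
    Finset (Fin (h0 n d)) → Poly n :=
  fun B => if sm B ≤ β then monomial (β - sm B) (coeff (β - sm B) (f B)) else 0

lemma coeff_gr (β : Fin (n + 1) →₀ ℕ) (f : Finset (Fin (h0 n d)) → Poly n)
    (B : Finset (Fin (h0 n d))) (u : Fin (n + 1) →₀ ℕ) :
    coeff u (gr β f B) = if u + sm B = β then coeff u (f B) else 0 := by
  classical
  rw [gr]
  by_cases h : sm B ≤ β
  · rw [if_pos h, coeff_monomial]
    by_cases h1 : β - sm B = u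
    · rw [if_pos h1, if_pos, h1]
      rw [← h1, tsub_add_cancel_of_le h]
    · rw [if_neg h1, if_neg]
      intro h2
      apply h1
      rw [← h2, add_tsub_cancel_right]
  · rw [if_neg h, coeff_zero, if_neg]
    intro h2
    apply h
    rw [← h2]
    exact le_add_self

lemma kosz_gr (β : Fin (n + 1) →₀ ℕ) (f : Finset (Fin (h0 n d)) → Poly n) :
    kosz n d (gr β f) = gr β (kosz n d f) := by
  funext G
  ext u
  rw [coeff_gr, coeff_kosz]
  have key : ∀ b ∈ Gᶜ, (mon n d b).1 ≤ u →
      ((u - (mon n d b).1) + sm (insert b G) = β ↔ u + sm G = β) := by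
    intro b hb hle
    rw [sm_insert (by simpa using hb), ← add_assoc, tsub_add_cancel_of_le hle]
  by_cases h : u + sm G = β
  · rw [if_pos h, coeff_kosz]
    refine Finset.sum_congr rfl fun b hb => ?_
    congr 1
    by_cases hle : (mon n d b).1 ≤ u
    · rw [if_pos hle, if_pos hle, coeff_gr, if_pos ((key b hb hle).mpr h)]
    · rw [if_neg hle, if_neg hle]
  · rw [if_neg h]
    apply Finset.sum_eq_zero
    intro b hb
    by_cases hle : (mon n d b).1 ≤ u
    · rw [if_pos hle, coeff_gr, if_neg, mul_zero]
      intro h'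
      exact h ((key b hb hle).mp h')
    · rw [if_neg hle, mul_zero]

lemma gr_mem {β : Fin (n + 1) →₀ ℕ} {f : Finset (Fin (h0 n d)) → Poly n} {p m : ℕ}
    (hf : f ∈ FF pos p m) : gr β f ∈ FF pos p m := by
  have hz : ∀ B, f B = 0 → gr β f B = 0 := by
    intro B hB
    ext u
    rw [coeff_gr, hB]
    simp
  refine ⟨⟨?_, ?_, ?_⟩, ?_⟩
  · intro B u hu
    rw [coeff_gr] at hu
    split_ifs at hu with h
    · exact hf.1.1 B u hu
    · exact absurd rfl hu
  · intro B hB
    exact hz B (hf.1.2.1 B hB)
  · rw [kosz_gr, hf.1.2.2]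
    funext B
    ext u
    rw [coeff_gr]
    simp
  · intro B hB
    exact hz B (hf.2 B hB)

/-- the spaces of leading coefficients are spanned by monomials -/
lemma Ld_monomial {B : Finset (Fin (h0 n d))} {m : Poly n} (hm : m ∈ Ld pos B)
    {u : Fin (n + 1) →₀ ℕ} (hu : coeff u m ≠ 0) : monomial u (1 : ℂ) ∈ Ld pos B := by
  obtain ⟨f, hf, rfl⟩ := hm
  change coeff u (f B) ≠ 0 at hu
  have h1 : gr (u + sm B) f B = coeff u (f B) • (monomial u (1 : ℂ) : Poly n) := by
    ext w
    rw [coeff_gr, coeff_smul, coeff_monomial]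
    by_cases h : w = u
    · subst h
      simp
    · rw [if_neg, if_neg (Ne.symm h), smul_zero]
      intro h'
      exact h (add_right_cancel h')
  have h2 : (coeff u (f B))⁻¹ • gr (u + sm B) f ∈ FF pos B.card (wt pos B + 1) :=
    Submodule.smul_mem _ _ (gr_mem hf)
  refine ⟨_, h2, ?_⟩
  rw [map_smul]
  change (coeff u (f B))⁻¹ • gr (u + sm B) f B = _
  rw [h1, smul_smul, inv_mul_cancel₀ hu, one_smul]

open Classical in
/-- the leading exponents -/
noncomputable def LX (pos : Fin (h0 n d) → ℕ) (B : Finset (Fin (h0 n d))) :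
    Finset (Fin (n + 1) →₀ ℕ) :=
  (UU n d).filter (fun u => (monomial u (1 : ℂ) : Poly n) ∈ Ld pos B)

lemma mem_LX {B : Finset (Fin (h0 n d))} {u : Fin (n + 1) →₀ ℕ} :
    u ∈ LX pos B ↔ (monomial u (1 : ℂ) : Poly n) ∈ Ld pos B := by
  classical
  simp only [LX, Finset.mem_filter]
  constructor
  · exact fun h => h.2
  · intro h
    refine ⟨?_, h⟩
    rw [mem_UU]
    exact Ld_M0 h u (by simp)

lemma finrank_Ld (B : Finset (Fin (h0 n d))) :
    Module.finrank ℂ (Ld pos B) = (LX pos B).card := by
  classical
  have hli : LinearIndependent ℂ (fun u : {u // u ∈ LX pos B} =>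
      (monomial u.1 (1 : ℂ) : Poly n)) := by
    have h1 := (basisMonomials (Fin (n + 1)) ℂ).linearIndependent
    rw [coe_basisMonomials] at h1
    exact h1.comp (fun u : {u // u ∈ LX pos B} => u.1) Subtype.val_injective
  have hspan : Ld pos B = Submodule.span ℂ (Set.range (fun u : {u // u ∈ LX pos B} =>
      (monomial u.1 (1 : ℂ) : Poly n))) := by
    apply le_antisymm
    · intro m hm
      rw [← m.support_sum_monomial_coeff]
      refine Submodule.sum_mem _ fun u hu => ?_
      have h1 := Ld_monomial hm (u := u) (by simpa [mem_support_iff] using hu)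
      have e : monomial u (coeff u m) = (coeff u m) • (monomial u (1 : ℂ) : Poly n) := by
        rw [smul_monomial, smul_eq_mul, mul_one]
      rw [e]
      exact Submodule.smul_mem _ _ (Submodule.subset_span ⟨⟨u, mem_LX.mpr h1⟩, rfl⟩)
    · rw [Submodule.span_le]
      rintro _ ⟨u, rfl⟩
      exact mem_LX.mp u.2
  rw [hspan, finrank_span_eq_card hli, Fintype.card_coe]

lemma LX_subset {B : Finset (Fin (h0 n d))} {v : Fin (h0 n d)} (hv : v ∈ B) :
    LX pos B ⊆ LX pos (B.erase v) := by
  intro u hu
  rw [mem_LX] at hu ⊢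
  exact Ld_le hv hu

/-! ### the inequality between consecutive dimensions -/

/-- the indicator of a leading pair -/
noncomputable def ind (pos : Fin (h0 n d) → ℕ) (B : Finset (Fin (h0 n d)))
    (u : Fin (n + 1) →₀ ℕ) : ℕ := by
  classical
  exact if u ∈ LX pos B then 1 else 0

lemma ind_pos {B : Finset (Fin (h0 n d))} {u : Fin (n + 1) →₀ ℕ} (h : u ∈ LX pos B) :
    ind pos B u = 1 := by
  simp [ind, h]

lemma ind_neg {B : Finset (Fin (h0 n d))} {u : Fin (n + 1) →₀ ℕ} (h : u ∉ LX pos B) :
    ind pos B u = 0 := by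
  simp [ind, h]

lemma ind_le {B : Finset (Fin (h0 n d))} {v : Fin (h0 n d)} (hv : v ∈ B)
    (u : Fin (n + 1) →₀ ℕ) : ind pos B u ≤ ind pos (B.erase v) u := by
  by_cases h : u ∈ LX pos B
  · rw [ind_pos h, ind_pos (LX_subset hv h)]
  · rw [ind_neg h]
    exact Nat.zero_le _

lemma finrank_KK' (hpos : Function.Injective pos) (p : ℕ) : Module.finrank ℂ (KK n d p) =
    ∑ u ∈ UU n d, ∑ B ∈ Finset.powersetCard p (univ : Finset (Fin (h0 n d))), ind pos B u := by
  classical
  rw [finrank_KK hpos, Finset.sum_comm]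
  refine Finset.sum_congr rfl fun B _ => ?_
  rw [finrank_Ld]
  have h1 : ∑ u ∈ UU n d, ind pos B u = ∑ u ∈ UU n d, if u ∈ LX pos B then 1 else 0 :=
    Finset.sum_congr rfl fun u _ => by
      by_cases h : u ∈ LX pos B
      · rw [ind_pos h, if_pos h]
      · rw [ind_neg h, if_neg h]
  rw [h1, ← Finset.sum_filter, Finset.card_eq_sum_ones]
  congr 1
  ext u
  simp only [Finset.mem_filter]
  constructor
  · intro h
    exact ⟨(Finset.mem_filter.mp h).1, h⟩
  · exact fun h => h.2

/-- the number of elements of a set outside a block -/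
def nu {J : Type*} (blk : J → Prop) [DecidablePred blk] (B : Finset J) : ℕ :=
  (B.filter (fun b => ¬ blk b)).card

lemma double_count (blk : Fin (h0 n d) → Prop) [DecidablePred blk] (u : Fin (n + 1) →₀ ℕ)
    (p : ℕ) :
    ∑ B ∈ Finset.powersetCard (p + 1) (univ : Finset (Fin (h0 n d))),
        nu blk B * ind pos B u ≤
      ∑ C ∈ Finset.powersetCard p (univ : Finset (Fin (h0 n d))),
        (nu blk (univ : Finset (Fin (h0 n d))) - nu blk C) * ind pos C u := by
  have e1 : ∀ C : Finset (Fin (h0 n d)), (Cᶜ.filter (fun b => ¬ blk b)).card =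
      nu blk (univ : Finset (Fin (h0 n d))) - nu blk C := by
    intro C
    have h : (Cᶜ.filter (fun b => ¬ blk b)).card + nu blk C =
        nu blk (univ : Finset (Fin (h0 n d))) := by
      rw [nu, nu, ← Finset.card_union_of_disjoint]
      · congr 1
        ext b
        simp only [Finset.mem_union, Finset.mem_filter, Finset.mem_compl, Finset.mem_univ,
          true_and]
        tauto
      · rw [Finset.disjoint_left]
        intro b hb hb'
        simp only [Finset.mem_filter, Finset.mem_compl] at hb hb'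
        exact hb.1 hb'.1
    omega
  calc ∑ B ∈ Finset.powersetCard (p + 1) (univ : Finset (Fin (h0 n d))),
        nu blk B * ind pos B u
      = ∑ B ∈ Finset.powersetCard (p + 1) (univ : Finset (Fin (h0 n d))),
          ∑ _v ∈ B.filter (fun b => ¬ blk b), ind pos B u := by
        refine Finset.sum_congr rfl fun B _ => ?_
        rw [Finset.sum_const, smul_eq_mul]
        rfl
    _ ≤ ∑ B ∈ Finset.powersetCard (p + 1) (univ : Finset (Fin (h0 n d))),
          ∑ v ∈ B.filter (fun b => ¬ blk b), ind pos (B.erase v) u := by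
        refine Finset.sum_le_sum fun B _ => Finset.sum_le_sum fun v hv => ?_
        exact ind_le (Finset.mem_filter.mp hv).1 u
    _ = ∑ C ∈ Finset.powersetCard p (univ : Finset (Fin (h0 n d))),
          ∑ _v ∈ Cᶜ.filter (fun b => ¬ blk b), ind pos C u := by
        rw [Finset.sum_sigma', Finset.sum_sigma']
        refine Finset.sum_bij' (fun x _ => ⟨x.1.erase x.2, x.2⟩) (fun x _ => ⟨insert x.2 x.1, x.2⟩)
          ?_ ?_ ?_ ?_ ?_
        · rintro ⟨B, v⟩ h
          simp only [Finset.mem_sigma, Finset.mem_powersetCard, Finset.mem_filter,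
            Finset.mem_compl] at h ⊢
          refine ⟨⟨Finset.subset_univ _, ?_⟩, Finset.notMem_erase _ _, h.2.2⟩
          rw [Finset.card_erase_of_mem h.2.1, h.1.2]
          rfl
        · rintro ⟨C, v⟩ h
          simp only [Finset.mem_sigma, Finset.mem_powersetCard, Finset.mem_filter,
            Finset.mem_compl] at h ⊢
          refine ⟨⟨Finset.subset_univ _, ?_⟩, Finset.mem_insert_self _ _, h.2.2⟩
          rw [Finset.card_insert_of_notMem h.2.1, h.1.2]
        · rintro ⟨B, v⟩ h
          simp only [Finset.mem_sigma, Finset.mem_filter] at h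
          simp only [Finset.insert_erase h.2.1]
        · rintro ⟨C, v⟩ h
          simp only [Finset.mem_sigma, Finset.mem_filter, Finset.mem_compl] at h
          simp only [Finset.erase_insert h.2.1]
        · rintro ⟨B, v⟩ h
          rfl
    _ = _ := by
        refine Finset.sum_congr rfl fun C _ => ?_
        rw [Finset.sum_const, smul_eq_mul, e1]

/-- The inequality between consecutive dimensions. -/
theorem ratio (hpos : Function.Injective pos)
    (blk : (Fin (n + 1) →₀ ℕ) → Fin (h0 n d) → Prop) [∀ u, DecidablePred (blk u)]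
    (N β : ℕ)
    (hβ : ∀ u ∈ UU n d, β ≤ (univ.filter (blk u)).card)
    (hN : ∀ u ∈ UU n d, ∀ B, u ∈ LX pos B → (B.filter (blk u)).card < N) (p : ℕ) :
    ((p : ℤ) + 2 - N) * Module.finrank ℂ (KK n d (p + 1)) ≤
      ((h0 n d : ℤ) - β + N - p - 1) * Module.finrank ℂ (KK n d p) := by
  have hnu : ∀ u ∈ UU n d, ∀ B, u ∈ LX pos B → B.card + 1 ≤ nu (blk u) B + N := by
    intro u hu B hB
    have h1 := hN u hu B hB
    have h2 : (B.filter (blk u)).card + nu (blk u) B = B.card := by
      rw [nu]
      exact Finset.card_filter_add_card_filter_not _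
    omega
  have huniv : ∀ u ∈ UU n d, nu (blk u) (univ : Finset (Fin (h0 n d))) + β ≤ h0 n d := by
    intro u hu
    have h1 := hβ u hu
    have h2 : ((univ : Finset (Fin (h0 n d))).filter (blk u)).card + nu (blk u) univ =
        (univ : Finset (Fin (h0 n d))).card := by
      rw [nu]
      exact Finset.card_filter_add_card_filter_not _
    rw [Finset.card_univ, Fintype.card_fin] at h2
    omega
  rw [finrank_KK' hpos, finrank_KK' hpos]
  push_cast
  rw [Finset.mul_sum, Finset.mul_sum]
  refine Finset.sum_le_sum fun u hu => ?_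
  have h1 : ((p : ℤ) + 2 - N) *
      (∑ B ∈ Finset.powersetCard (p + 1) (univ : Finset (Fin (h0 n d))), (ind pos B u : ℤ)) ≤
      ∑ B ∈ Finset.powersetCard (p + 1) (univ : Finset (Fin (h0 n d))),
        (nu (blk u) B : ℤ) * ind pos B u := by
    rw [Finset.mul_sum]
    refine Finset.sum_le_sum fun B hB => ?_
    by_cases h : u ∈ LX pos B
    · have h2 := hnu u hu B h
      rw [(Finset.mem_powersetCard.mp hB).2] at h2
      apply mul_le_mul_of_nonneg_right _ (by positivity)
      omega
    · rw [ind_neg h]; simp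
  have h2 : ∑ C ∈ Finset.powersetCard p (univ : Finset (Fin (h0 n d))),
        (((nu (blk u) (univ : Finset (Fin (h0 n d))) - nu (blk u) C : ℕ) : ℤ)) * ind pos C u ≤
      ((h0 n d : ℤ) - β + N - p - 1) *
        ∑ C ∈ Finset.powersetCard p (univ : Finset (Fin (h0 n d))), (ind pos C u : ℤ) := by
    rw [Finset.mul_sum]
    refine Finset.sum_le_sum fun C hC => ?_
    by_cases h : u ∈ LX pos C
    · have h2 := hnu u hu C h
      rw [(Finset.mem_powersetCard.mp hC).2] at h2
      apply mul_le_mul_of_nonneg_right _ (by positivity)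
      have h3 : nu (blk u) C ≤ nu (blk u) (univ : Finset (Fin (h0 n d))) :=
        Finset.card_le_card (Finset.filter_subset_filter _ (Finset.subset_univ _))
      have h4 := huniv u hu
      omega
    · rw [ind_neg h]; simp
  have h3 := double_count (pos := pos) (blk u) u p
  have h4 : ∑ B ∈ Finset.powersetCard (p + 1) (univ : Finset (Fin (h0 n d))),
        (nu (blk u) B : ℤ) * ind pos B u ≤
      ∑ C ∈ Finset.powersetCard p (univ : Finset (Fin (h0 n d))),
        (((nu (blk u) (univ : Finset (Fin (h0 n d))) - nu (blk u) C : ℕ) : ℤ)) *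
          ind pos C u := by
    exact_mod_cast h3
  exact (h1.trans h4).trans h2

end Pool.Agent.W474.Ver
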