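import Mathlib
import Pool.Agent.H940R2.Vanish
import Pool.Agent.W474.Ver.Lead

/-!
The case `n = 8`: the nine variables are divided into three groups of three.
-/

namespace Pool.Agent.W474.Ver

open MvPolynomial Finset
open Pool.Agent.H940R2 (sg sg_anti sg_mul_self sg_ne_zero vanish)

/-- an exponent vector in nine variables -/
abbrev Ex := Fin (8 + 1) →₀ ℕ

/-- the nine variables in three groups of three -/
def eqv : Fin 3 × Fin 3 ≃ Fin (8 + 1) := finProdFinEquiv

/-- the part of an exponent vector in a group -/
noncomputable def part (u : Ex) (m : Fin 3) : Fin 3 →₀ ℕ :=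
  Finsupp.equivFunOnFinite.symm (fun j => u (eqv (m, j)))

@[simp] lemma part_apply (u : Ex) (m j : Fin 3) : part u m j = u (eqv (m, j)) := rfl

/-- the exponent vector with given parts -/
noncomputable def glue (φ : Fin 3 → (Fin 3 →₀ ℕ)) : Ex :=
  Finsupp.equivFunOnFinite.symm (fun c => φ (eqv.symm c).1 (eqv.symm c).2)

@[simp] lemma glue_apply (φ : Fin 3 → (Fin 3 →₀ ℕ)) (m j : Fin 3) :
    glue φ (eqv (m, j)) = φ m j := by
  change φ (eqv.symm (eqv (m, j))).1 (eqv.symm (eqv (m, j))).2 = φ m j
  rw [Equiv.symm_apply_apply]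

@[simp] lemma part_glue (φ : Fin 3 → (Fin 3 →₀ ℕ)) (m : Fin 3) : part (glue φ) m = φ m := by
  ext j
  rw [part_apply, glue_apply]

lemma glue_part (u : Ex) : glue (part u) = u := by
  ext c
  obtain ⟨⟨m, j⟩, rfl⟩ := eqv.surjective c
  rw [glue_apply, part_apply]

lemma glue_inj : Function.Injective glue := by
  intro φ ψ h
  funext m
  rw [← part_glue φ, h, part_glue]

/-- the degree in a group of variables -/
noncomputable def gs (u : Ex) (m : Fin 3) : ℕ := ∑ j, part u m j

lemma sum_gs (u : Ex) : ∑ a, u a = ∑ m, gs u m := by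
  rw [← Equiv.sum_comp eqv, Fintype.sum_prod_type]
  rfl

lemma gs_add (u v : Ex) (m : Fin 3) : gs (u + v) m = gs u m + gs v m := by
  simp [gs, Finset.sum_add_distrib]

lemma gs_sub {u v : Ex} (h : v ≤ u) (m : Fin 3) : gs (u - v) m + gs v m = gs u m := by
  rw [← gs_add, tsub_add_cancel_of_le h]

lemma gs_pos {u : Ex} (h : ∀ c, 1 ≤ u c) (m : Fin 3) : 1 ≤ gs u m := by
  rw [gs]
  calc 1 ≤ part u m 0 := h _
    _ ≤ ∑ j, part u m j := Finset.single_le_sum (f := fun j => part u m j)
        (fun _ _ => Nat.zero_le _) (Finset.mem_univ _)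

/-- positive triples with given sum -/
noncomputable def TT3 (s : ℕ) : Finset (Fin 3 →₀ ℕ) :=
  if s < 3 then ∅ else
    (Finset.finsuppAntidiag (Finset.univ : Finset (Fin 3)) (s - 3)).image
      (fun φ => φ + Finsupp.equivFunOnFinite.symm (fun _ => 1))

lemma mem_TT3 {s : ℕ} {φ : Fin 3 →₀ ℕ} : φ ∈ TT3 s ↔ (∑ j, φ j = s) ∧ ∀ j, 1 ≤ φ j := by
  rw [TT3]
  split_ifs with h
  · constructor
    · intro h'; exact absurd h' (Finset.notMem_empty _)
    · rintro ⟨h1, h2⟩
      exfalso
      rw [Fin.sum_univ_three] at h1
      have := h2 0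
      have := h2 1
      have := h2 2
      omega
  · rw [Finset.mem_image]
    constructor
    · rintro ⟨ψ, hψ, rfl⟩
      rw [Finset.mem_finsuppAntidiag] at hψ
      have h1 := hψ.1
      rw [Fin.sum_univ_three] at h1
      refine ⟨?_, ?_⟩
      · rw [Fin.sum_univ_three]
        simp only [Finsupp.add_apply, Finsupp.equivFunOnFinite_symm_apply_apply]
        omega
      · intro j
        simp
    · rintro ⟨h1, h2⟩
      rw [Fin.sum_univ_three] at h1
      have a0 := h2 0
      have a1 := h2 1
      have a2 := h2 2
      refine ⟨Finsupp.equivFunOnFinite.symm (fun j => φ j - 1), ?_, ?_⟩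
      · rw [Finset.mem_finsuppAntidiag]
        refine ⟨?_, Finset.subset_univ _⟩
        rw [Fin.sum_univ_three]
        simp only [Finsupp.equivFunOnFinite_symm_apply_apply]
        omega
      · ext j
        simp only [Finsupp.add_apply, Finsupp.equivFunOnFinite_symm_apply_apply]
        have := h2 j
        omega

lemma card_anti (s : ℕ) :
    2 * (Finset.finsuppAntidiag (Finset.univ : Finset (Fin 3)) s).card = (s + 1) * (s + 2) := by
  rw [Finset.card_finsuppAntidiag_nat_eq_choose]
  simp only [Finset.card_univ, Fintype.card_fin]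
  have e : 3 + s - 1 = s + 2 := by omega
  have h1 := Nat.add_one_mul_choose_eq (s + 1) 1
  have h2 : (s + 1).choose 1 = s + 1 := Nat.choose_one_right _
  have h3 : (s + 2).choose s = (s + 2).choose 2 := by
    rw [← Nat.choose_symm_add]
  rw [e, h3]
  rw [h2] at h1
  simp only [Nat.reduceAdd, add_assoc] at h1
  linarith

lemma card_TT3 (s : ℕ) : 2 * (TT3 s).card ≤ s ^ 2 := by
  rw [TT3]
  split_ifs with h
  · simp
  · have h1 := card_anti (s - 3)
    obtain ⟨t, rfl⟩ : ∃ t, s = t + 3 := ⟨s - 3, by omega⟩
    rw [Nat.add_sub_cancel] at h1 ⊢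
    calc 2 * _ ≤ 2 * (Finset.finsuppAntidiag (Finset.univ : Finset (Fin 3)) t).card :=
          Nat.mul_le_mul_left _ Finset.card_image_le
      _ = (t + 1) * (t + 2) := h1
      _ ≤ (t + 3) ^ 2 := by nlinarith

/-- the exponents with the same group degrees as `u` and the same part in the group `m` -/
noncomputable def WW (m : Fin 3) (u : Ex) : Finset Ex :=
  (Fintype.piFinset (fun m' => if m' = m then {part u m} else TT3 (gs u m'))).image glue

lemma mem_WW {m : Fin 3} {u v : Ex} : v ∈ WW m u ↔
    part v m = part u m ∧ ∀ m', m' ≠ m → gs v m' = gs u m' ∧ ∀ j, 1 ≤ part v m' j := by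
  rw [WW, Finset.mem_image]
  constructor
  · rintro ⟨φ, hφ, rfl⟩
    rw [Fintype.mem_piFinset] at hφ
    refine ⟨?_, ?_⟩
    · have := hφ m
      rw [if_pos rfl, Finset.mem_singleton] at this
      rw [part_glue, this]
    · intro m' hm'
      have := hφ m'
      rw [if_neg hm', mem_TT3] at this
      rw [gs, part_glue]
      exact this
  · rintro ⟨h1, h2⟩
    refine ⟨part v, ?_, glue_part v⟩
    rw [Fintype.mem_piFinset]
    intro m'
    by_cases h : m' = m
    · rw [if_pos h, Finset.mem_singleton, h, h1]
    · rw [if_neg h, mem_TT3]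
      exact h2 m' h

lemma card_WW {l : ℕ} {m : Fin 3} {u : Ex}
    (h : ∏ m' ∈ univ.erase m, gs u m' ≤ 2 * l ^ 2) : (WW m u).card ≤ l ^ 4 := by
  have h1 : (WW m u).card ≤ ∏ m' ∈ univ.erase m, (TT3 (gs u m')).card := by
    refine Finset.card_image_le.trans ?_
    rw [Fintype.card_piFinset, ← Finset.mul_prod_erase _ _ (Finset.mem_univ m), if_pos rfl,
      Finset.card_singleton, one_mul]
    apply le_of_eq
    refine Finset.prod_congr rfl fun m' hm' => ?_
    rw [if_neg (Finset.ne_of_mem_erase hm')]
  have h2 : ∏ m' ∈ univ.erase m, (2 * (TT3 (gs u m')).card) ≤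
      ∏ m' ∈ univ.erase m, (gs u m') ^ 2 :=
    Finset.prod_le_prod' fun m' _ => card_TT3 _
  rw [Finset.prod_mul_distrib, Finset.prod_const, Finset.prod_pow,
    Finset.card_erase_of_mem (Finset.mem_univ m), Finset.card_univ, Fintype.card_fin] at h2
  have h3 : (∏ m' ∈ univ.erase m, gs u m') ^ 2 ≤ (2 * l ^ 2) ^ 2 := Nat.pow_le_pow_left h 2
  have h4 : (2 * l ^ 2) ^ 2 = 4 * l ^ 4 := by ring
  norm_num at h2
  omega

/-- the median group -/
lemma exists_med (k : ℕ) (s : Fin 3 → ℕ) (hs : ∑ m, s m = 2 * k) :
    ∃ m, s m ≤ k ∧ 2 * ∏ m' ∈ univ.erase m, s m' ≤ k ^ 2 := by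
  have key : ∀ a b c : ℕ, a ≤ b → b ≤ c → a + b + c = 2 * k → b ≤ k ∧ 2 * (a * c) ≤ k ^ 2 := by
    intro a b c hab hbc hsum
    refine ⟨by omega, ?_⟩
    have h1 : c ≤ 2 * k - 2 * a := by omega
    have h2 : a ≤ k := by omega
    obtain ⟨t, rfl⟩ : ∃ t, k = a + t := ⟨k - a, by omega⟩
    have h3 : c ≤ 2 * t := by omega
    calc 2 * (a * c) ≤ 2 * (a * (2 * t)) := by gcongr
      _ ≤ (a + t) ^ 2 := by
        have := Nat.zero_le 0
        zify
        nlinarith [sq_nonneg ((a : ℤ) - t)]
  have e0 : (univ : Finset (Fin 3)).erase 0 = {1, 2} := by decide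
  have e1 : (univ : Finset (Fin 3)).erase 1 = {0, 2} := by decide
  have e2 : (univ : Finset (Fin 3)).erase 2 = {0, 1} := by decide
  have p0 : ∏ m' ∈ (univ : Finset (Fin 3)).erase 0, s m' = s 1 * s 2 := by
    rw [e0, Finset.prod_pair (by decide)]
  have p1 : ∏ m' ∈ (univ : Finset (Fin 3)).erase 1, s m' = s 0 * s 2 := by
    rw [e1, Finset.prod_pair (by decide)]
  have p2 : ∏ m' ∈ (univ : Finset (Fin 3)).erase 2, s m' = s 0 * s 1 := by
    rw [e2, Finset.prod_pair (by decide)]
  rw [Fin.sum_univ_three] at hs
  rcases le_total (s 0) (s 1) with h01 | h01 <;> rcases le_total (s 1) (s 2) with h12 | h12 <;>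
    rcases le_total (s 0) (s 2) with h02 | h02
  · refine ⟨1, ?_⟩; rw [p1]; exact key _ _ _ h01 h12 hs
  · refine ⟨1, ?_⟩; rw [p1]; exact key _ _ _ h01 h12 hs
  · -- 0 ≤ 2 ≤ 1
    refine ⟨2, ?_⟩; rw [p2]; exact key _ _ _ h02 h12 (by omega)
  · -- 2 ≤ 0 ≤ 1
    refine ⟨0, ?_⟩; rw [p0, mul_comm (s 1)]; exact key _ _ _ h02 h01 (by omega)
  · -- 1 ≤ 0 ≤ 2
    refine ⟨0, ?_⟩; rw [p0]; exact key _ _ _ h01 h02 (by omega)
  · -- 1 ≤ 2 ≤ 0
    refine ⟨2, ?_⟩; rw [p2, mul_comm (s 0)]; exact key _ _ _ h12 h02 (by omega)
  · -- 2 ≤ 1 ≤ 0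
    refine ⟨1, ?_⟩; rw [p1, mul_comm (s 0)]; exact key _ _ _ h12 h01 (by omega)
  · refine ⟨1, ?_⟩; rw [p1, mul_comm (s 0)]; exact key _ _ _ h12 h01 (by omega)

open Classical in
/-- the chosen group -/
noncomputable def med (k : ℕ) (u : Ex) : Fin 3 :=
  if h : ∃ m, gs u m ≤ k ∧ 2 * ∏ m' ∈ univ.erase m, gs u m' ≤ k ^ 2 then h.choose else 0

lemma med_spec {k : ℕ} {u : Ex} (hu : ∑ a, u a = 2 * k) :
    gs u (med k u) ≤ k ∧ 2 * ∏ m' ∈ univ.erase (med k u), gs u m' ≤ k ^ 2 := by
  rw [sum_gs] at hu
  have h := exists_med k (gs u) hu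
  rw [med, dif_pos h]
  exact h.choose_spec

/-- the block of the group `m` -/
def Bl (k : ℕ) (m : Fin 3) (i : Fin (h0 8 (2 * k))) : Prop :=
  gs (mon 8 (2 * k) i).1 m = 0 ∧ ∀ m', m' ≠ m → gs (mon 8 (2 * k) i).1 m' = k

noncomputable instance (k : ℕ) (m : Fin 3) : DecidablePred (Bl k m) := Classical.decPred _

/-- monomials in some block -/
def AnyBl (k : ℕ) (i : Fin (h0 8 (2 * k))) : Prop := ∃ m, Bl k m i

noncomputable instance (k : ℕ) : DecidablePred (AnyBl k) := Classical.decPred _

lemma part_of_Bl {k : ℕ} {m : Fin 3} {i : Fin (h0 8 (2 * k))} (h : Bl k m i) :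
    part (mon 8 (2 * k) i).1 m = 0 := by
  have h1 := h.1
  rw [gs, Finset.sum_eq_zero_iff] at h1
  ext j
  exact h1 j (Finset.mem_univ j)

/-- the position of a vertex; the vertices outside the blocks come after those in the blocks -/
noncomputable def posn (k : ℕ) (i : Fin (h0 8 (2 * k))) : ℕ :=
  if AnyBl k i then i.val else i.val + h0 8 (2 * k)

lemma posn_inj (k : ℕ) : Function.Injective (posn k) := by
  intro i j h
  simp only [posn] at h
  have hi := i.2
  have hj := j.2
  apply Fin.ext
  split_ifs at h <;> omega

/-- the projection to the span of the monomials with exponents in a finite set -/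
noncomputable def prj (W : Finset Ex) (f : Poly 8) : Poly 8 := ∑ w ∈ W, monomial w (coeff w f)

lemma coeff_prj (W : Finset Ex) (f : Poly 8) (v : Ex) :
    coeff v (prj W f) = if v ∈ W then coeff v f else 0 := by
  simp only [prj, coeff_sum, coeff_monomial]
  rw [Finset.sum_ite_eq']

/-- the span of the monomials with exponents in a finite set -/
noncomputable def Msp (W : Finset Ex) : Submodule ℂ (Poly 8) :=
  Submodule.span ℂ ((W.image (fun w => (monomial w (1 : ℂ) : Poly 8)) : Finset (Poly 8)) :
    Set (Poly 8))

instance (W : Finset Ex) : FiniteDimensional ℂ (Msp W) := by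
  rw [Msp]
  exact FiniteDimensional.span_finset ℂ _

lemma finrank_Msp (W : Finset Ex) : Module.finrank ℂ (Msp W) ≤ W.card := by
  classical
  exact (finrank_span_finset_le_card _).trans Finset.card_image_le

lemma prj_mem (W : Finset Ex) (f : Poly 8) : prj W f ∈ Msp W := by
  classical
  rw [prj]
  refine Submodule.sum_mem _ fun w hw => ?_
  have e : monomial w (coeff w f) = (coeff w f) • (monomial w (1 : ℂ) : Poly 8) := by
    rw [smul_monomial, smul_eq_mul, mul_one]
  rw [e]
  refine Submodule.smul_mem _ _ (Submodule.subset_span ?_)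
  rw [Finset.coe_image]
  exact ⟨w, hw, rfl⟩

lemma sg_union {J : Type*} [LinearOrder J] {G H : Finset J} (h : Disjoint G H) (b : J) :
    sg ℂ (G ∪ H) b = sg ℂ G b * sg ℂ H b := by
  rw [sg, sg, sg, ← pow_add, Finset.filter_union, Finset.card_union_of_disjoint]
  exact Finset.disjoint_filter_filter h

/-- few leading vertices in the block -/
theorem block_bound {l k : ℕ} (hk : k = 2 * l) {u : Ex} (hu : u ∈ UU 8 (2 * k))
    {B : Finset (Fin (h0 8 (2 * k)))} (hB : u ∈ LX (posn k) B) :
    (B.filter (Bl k (med k u))).card < l ^ 4 := by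
  classical
  by_contra hcon
  push Not at hcon
  obtain ⟨hus, hu1⟩ := mem_UU.mp hu
  obtain ⟨hm1, hm2⟩ := med_spec hus
  set m := med k u with hm
  have hW : (WW m u).card ≤ l ^ 4 := by
    apply card_WW
    have : k ^ 2 = 4 * l ^ 2 := by rw [hk]; ring
    omega
  rw [mem_LX] at hB
  obtain ⟨f, hf, hfB⟩ := hB
  change f B = monomial u 1 at hfB
  set B1 := B.filter (Bl k m) with hB1
  set B2 := B.filter (fun b => ¬ Bl k m b) with hB2
  have hdisj : ∀ G : Finset (Fin (h0 8 (2 * k))), (∀ b ∈ G, Bl k m b) → Disjoint G B2 := by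
    intro G hG
    rw [Finset.disjoint_left]
    intro b hb hb2
    exact (Finset.mem_filter.mp hb2).2 (hG b hb)
  have hunion : B1 ∪ B2 = B := Finset.filter_union_filter_not_eq _ _
  have hB1b : ∀ b ∈ B1, Bl k m b := fun b hb => (Finset.mem_filter.mp hb).2
  let g : Finset (Fin (h0 8 (2 * k))) → Poly 8 := fun G =>
    if (∀ b ∈ G, Bl k m b) then (∏ b ∈ G, sg ℂ B2 b) • prj (WW m u) (f (G ∪ B2)) else 0
  have hg : g = 0 := by
    refine vanish (κ := Unit) (fun _ => Bl k m) (bas 8 (2 * k)) ?_ B1.card (Msp (WW m u))
      ((finrank_Msp _).trans (hW.trans hcon)) g ?_ ?_ ?_ ?_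
    · intro _ s hs t ht b hb
      have h1 := congrArg (coeff (mon 8 (2 * k) b).1) ht
      rw [coeff_sum, coeff_zero, Finset.sum_eq_single b] at h1
      · simpa [bas] using h1
      · intro b' hb' hne
        rw [coeff_smul, bas, coeff_monomial, if_neg, smul_zero]
        intro h'
        exact hne ((mon 8 (2 * k)).injective (Subtype.ext h'))
      · intro h; exact absurd hb h
    · intro G
      simp only [g]
      split_ifs
      · exact Submodule.smul_mem _ _ (prj_mem _ _)
      · exact Submodule.zero_mem _
    · intro G hG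
      simp only [g]
      split_ifs with h
      · have h0 : f (G ∪ B2) = 0 := by
          apply hf.1.2.1
          rw [Finset.card_union_of_disjoint (hdisj G h)]
          have h1 : B1.card + B2.card = B.card := by
            rw [← Finset.card_union_of_disjoint (hdisj B1 hB1b), hunion]
          omega
        rw [h0]
        have : prj (WW m u) 0 = 0 := by
          ext v
          rw [coeff_prj]; simp
        rw [this, smul_zero]
      · rfl
    · intro G hG b hb
      refine ⟨(), ?_⟩
      by_contra h
      apply hG
      simp only [g]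
      rw [if_neg]
      intro h'
      exact h (h' b hb)
    · intro _ G
      by_cases hGb : ∀ b ∈ G, Bl k m b
      · have h2 : ∑ b ∈ Gᶜ.filter (Bl k m), sg ℂ G b • (bas 8 (2 * k) b * g (insert b G)) =
            (∏ b ∈ G, sg ℂ B2 b) • ∑ b ∈ Gᶜ.filter (Bl k m), sg ℂ (G ∪ B2) b •
              (bas 8 (2 * k) b * prj (WW m u) (f (insert b (G ∪ B2)))) := by
          rw [Finset.smul_sum]
          refine Finset.sum_congr rfl fun b hb => ?_
          simp only [Finset.mem_filter, Finset.mem_compl] at hb
          have h3 : ∀ c ∈ insert b G, Bl k m c := by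
            intro c hc
            rw [Finset.mem_insert] at hc
            rcases hc with rfl | hc
            · exact hb.2
            · exact hGb c hc
          simp only [g]
          rw [if_pos h3, Finset.prod_insert hb.1, Finset.insert_union, sg_union (hdisj G hGb),
            mul_smul_comm, smul_smul, smul_smul]
          congr 1
          ring
        rw [h2]
        have h3 : ∑ b ∈ Gᶜ.filter (Bl k m), sg ℂ (G ∪ B2) b •
              (bas 8 (2 * k) b * prj (WW m u) (f (insert b (G ∪ B2)))) = 0 := by
          ext v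
          rw [coeff_sum, coeff_zero]
          by_cases hv : part v m = part u m ∧ ∀ m', m' ≠ m → gs v m' = gs u m' + k
          · have h1 : kosz 8 (2 * k) f (G ∪ B2) = 0 := by rw [hf.1.2.2]; rfl
            rw [kosz_apply'] at h1
            have h1' := congrArg (coeff v) h1
            rw [coeff_sum, coeff_zero] at h1'
            refine Eq.trans ?_ h1'
            have hsub : Gᶜ.filter (Bl k m) ⊆ (G ∪ B2)ᶜ := by
              intro b hb
              simp only [Finset.mem_filter, Finset.mem_compl, Finset.mem_union, not_or] at hb ⊢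
              refine ⟨hb.1, ?_⟩
              intro h2
              exact (Finset.mem_filter.mp h2).2 hb.2
            rw [← Finset.sum_subset hsub]
            · refine Finset.sum_congr rfl fun b hb => ?_
              have hbb := (Finset.mem_filter.mp hb).2
              rw [coeff_smul, coeff_smul]
              refine congrArg (fun z => sg ℂ (G ∪ B2) b • z) ?_
              rw [bas, coeff_monomial_mul', coeff_monomial_mul', one_mul, one_mul]
              by_cases hle : (mon 8 (2 * k) b).1 ≤ v
              · rw [if_pos hle, if_pos hle, coeff_prj]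
                by_cases hne : coeff (v - (mon 8 (2 * k) b).1) (f (insert b (G ∪ B2))) = 0
                · rw [hne]; simp
                · rw [if_pos]
                  rw [mem_WW]
                  have hM := hf.1.1 _ _ hne
                  refine ⟨?_, ?_⟩
                  · rw [← hv.1]
                    ext j
                    have h4 := part_of_Bl hbb
                    have h5 := DFunLike.congr_fun h4 j
                    rw [part_apply] at h5
                    rw [part_apply, part_apply, Finsupp.tsub_apply, h5]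
                    simp
                  · intro m' hm'
                    refine ⟨?_, ?_⟩
                    · have h4 := gs_sub hle m'
                      have h5 := hbb.2 m' hm'
                      have h6 := hv.2 m' hm'
                      omega
                    · intro j
                      exact hM.2 _
              · rw [if_neg hle, if_neg hle]
            · intro b hb hnb
              simp only [Finset.mem_filter, Finset.mem_compl, Finset.mem_union, not_or, not_and]
                at hb hnb
              have hbb : ¬ Bl k m b := hnb hb.1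
              have hb' : b ∉ G ∪ B2 := by
                simp only [Finset.mem_union, not_or]; exact hb
              rw [coeff_smul, bas, coeff_monomial_mul', one_mul]
              by_cases hany : AnyBl k b
              · -- other block
                obtain ⟨m', hm'⟩ := hany
                have hne : m' ≠ m := by
                  rintro rfl
                  exact hbb hm'
                by_cases hle : (mon 8 (2 * k) b).1 ≤ v
                · rw [if_pos hle]
                  have hz : coeff (v - (mon 8 (2 * k) b).1) (f (insert b (G ∪ B2))) = 0 := by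
                    by_contra hne'
                    have hM := hf.1.1 _ _ hne'
                    have h4 := gs_sub hle m
                    have h5 := hm'.2 m hne.symm
                    have h6 := gs_pos hM.2 m
                    have h7 : gs v m = gs u m := by
                      rw [gs, gs, hv.1]
                    omega
                  rw [hz, smul_zero]
                · rw [if_neg hle, smul_zero]
              · have hz : f (insert b (G ∪ B2)) = 0 := by
                  apply hf.2
                  rw [wt_insert _ hb']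
                  have h4 : wt (posn k) B1 < 2 ^ (posn k b) := by
                    apply wt_lt (posn_inj k)
                    intro b' hb'
                    simp only [posn]
                    rw [if_pos ⟨m, hB1b b' hb'⟩, if_neg hany]
                    have := b'.2
                    omega
                  have h5 : wt (posn k) B = wt (posn k) B1 + wt (posn k) B2 := by
                    rw [← hunion, wt, Finset.sum_union (hdisj B1 hB1b)]
                    rfl
                  have h6 : wt (posn k) (G ∪ B2) = wt (posn k) G + wt (posn k) B2 := by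
                    rw [wt, Finset.sum_union (hdisj G hGb)]
                    rfl
                  omega
                rw [hz]
                simp
          · apply Finset.sum_eq_zero
            intro b hb
            have hbb := (Finset.mem_filter.mp hb).2
            rw [coeff_smul, bas, coeff_monomial_mul', one_mul]
            by_cases hle : (mon 8 (2 * k) b).1 ≤ v
            · rw [if_pos hle, coeff_prj, if_neg, smul_zero]
              intro hmem
              rw [mem_WW] at hmem
              apply hv
              refine ⟨?_, ?_⟩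
              · rw [← hmem.1]
                ext j
                have h4 := part_of_Bl hbb
                have h5 := DFunLike.congr_fun h4 j
                rw [part_apply] at h5
                rw [part_apply, part_apply, Finsupp.tsub_apply, h5]
                simp
              · intro m' hm'
                have h4 := gs_sub hle m'
                have h5 := hbb.2 m' hm'
                have h6 := (hmem.2 m' hm').1
                omega
            · rw [if_neg hle, smul_zero]
        rw [h3, smul_zero]
      · apply Finset.sum_eq_zero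
        intro b _
        simp only [g]
        rw [if_neg, mul_zero, smul_zero]
        intro h
        exact hGb fun c hc => h c (Finset.mem_insert_of_mem hc)
  have h1 := congrFun hg B1
  simp only [g, if_pos hB1b, hunion, Pi.zero_apply, smul_eq_zero] at h1
  rcases h1 with h1 | h1
  · rw [Finset.prod_eq_zero_iff] at h1
    obtain ⟨b, _, hb⟩ := h1
    exact sg_ne_zero B2 b hb
  · have h2 := congrArg (coeff u) h1
    rw [coeff_prj, if_pos, hfB, coeff_monomial, if_pos rfl, coeff_zero] at h2
    · exact one_ne_zero h2
    · rw [mem_WW]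
      exact ⟨rfl, fun m' _ => ⟨rfl, fun j => hu1 _⟩⟩

/-- the blocks are large -/
theorem card_Bl {l k : ℕ} (hk : k = 2 * l) (m : Fin 3) :
    4 * l ^ 4 ≤ ((univ : Finset (Fin (h0 8 (2 * k)))).filter (Bl k m)).card := by
  classical
  set A := Finset.finsuppAntidiag (Finset.univ : Finset (Fin 3)) k with hA
  set P : Finset (Fin 3 → (Fin 3 →₀ ℕ)) :=
    Fintype.piFinset (fun m' => if m' = m then {0} else A) with hP
  have hPm : ∀ φ ∈ P, ∀ m', gs (glue φ) m' = if m' = m then 0 else k := by
    intro φ hφ m'
    have h1 := (Fintype.mem_piFinset.mp hφ) m'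
    rw [gs, part_glue]
    split_ifs at h1 ⊢ with h
    · rw [Finset.mem_singleton] at h1
      rw [h1]; simp
    · rw [hA, Finset.mem_finsuppAntidiag] at h1
      exact h1.1
  have hsum : ∀ φ ∈ P, ∑ a, glue φ a = 2 * k := by
    intro φ hφ
    rw [sum_gs, Finset.sum_congr rfl (fun m' _ => hPm φ hφ m'), Fin.sum_univ_three]
    fin_cases m <;> simp <;> omega
  have hcardP : P.card = A.card ^ 2 := by
    rw [hP, Fintype.card_piFinset, ← Finset.mul_prod_erase _ _ (Finset.mem_univ m), if_pos rfl,
      Finset.card_singleton, one_mul]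
    rw [Finset.prod_congr rfl (g := fun _ => A.card)]
    · rw [Finset.prod_const, Finset.card_erase_of_mem (Finset.mem_univ m), Finset.card_univ,
        Fintype.card_fin]
    · intro m' hm'
      rw [if_neg (Finset.ne_of_mem_erase hm')]
  have hA2 : 2 * A.card = (k + 1) * (k + 2) := card_anti k
  have hA3 : 2 * l ^ 2 ≤ A.card := by
    rw [hk] at hA2
    nlinarith
  have h4 : 4 * l ^ 4 ≤ P.card := by
    rw [hcardP]
    calc 4 * l ^ 4 = (2 * l ^ 2) ^ 2 := by ring
      _ ≤ A.card ^ 2 := Nat.pow_le_pow_left hA3 2
  refine h4.trans ?_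
  refine Finset.card_le_card_of_injOn
    (fun φ => if h : ∑ a, glue φ a = 2 * k then (mon 8 (2 * k)).symm ⟨glue φ, h⟩ else
      (mon 8 (2 * k)).symm ⟨Finsupp.single 0 (2 * k), by
        simp only [Finsupp.single_apply]; simp⟩) ?_ ?_
  · intro φ hφ
    rw [Finset.mem_coe] at hφ
    have h := hsum φ hφ
    simp only [dif_pos h]
    rw [Finset.mem_coe, Finset.mem_filter]
    refine ⟨Finset.mem_univ _, ?_, ?_⟩
    · rw [Equiv.apply_symm_apply, hPm φ hφ, if_pos rfl]
    · intro m' hm'
      rw [Equiv.apply_symm_apply, hPm φ hφ, if_neg hm']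
  · intro φ hφ ψ hψ h
    rw [Finset.mem_coe] at hφ hψ
    simp only [dif_pos (hsum φ hφ), dif_pos (hsum ψ hψ)] at h
    have h1 := (mon 8 (2 * k)).symm.injective h
    exact glue_inj (congrArg Subtype.val h1)

/-- The inequality between consecutive dimensions, for `ℙ⁸` and `d = 4 l`. -/
theorem ratio8 (l p : ℕ) :
    ((p : ℤ) + 2 - (l ^ 4 : ℕ)) * Module.finrank ℂ (KK 8 (2 * (2 * l)) (p + 1)) ≤
      ((h0 8 (2 * (2 * l)) : ℤ) - (4 * l ^ 4 : ℕ) + (l ^ 4 : ℕ) - p - 1) *
        Module.finrank ℂ (KK 8 (2 * (2 * l)) p) := by
  refine ratio (posn_inj (2 * l)) (fun u => Bl (2 * l) (med (2 * l) u)) (l ^ 4) (4 * l ^ 4)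
    ?_ ?_ p
  · intro u _
    exact card_Bl rfl _
  · intro u hu B hB
    exact block_bound rfl hu hB

end Pool.Agent.W474.Ver
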