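import Mathlib
import Pool.Agent.W474.Ver.Block

/-!
Cardinalities and the decay of the dimensions of the spaces of cycles past the middle, for `ℙ⁸`.
-/

namespace Pool.Agent.W474.Ver

open MvPolynomial Finset

/-- `h⁰(ℙⁿ, 𝒪(d))` is the binomial coefficient. -/
lemma h0_eq_choose (n d : ℕ) : h0 n d = (d + n).choose n := by
  have e : Mon n d ≃ {a // a ∈ Finset.finsuppAntidiag (Finset.univ : Finset (Fin (n + 1))) d} :=
    Equiv.subtypeEquivRight (fun u => by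
      rw [Finset.mem_finsuppAntidiag]
      exact ⟨fun h => ⟨h, Finset.subset_univ _⟩, fun h => h.1⟩)
  rw [h0, Nat.card_congr e, Nat.card_eq_fintype_card, Fintype.card_coe,
    Finset.card_finsuppAntidiag_nat_eq_choose, Finset.card_univ, Fintype.card_fin]
  have e1 : n + 1 + d - 1 = d + n := by omega
  rw [e1, Nat.choose_symm_add]

lemma fact_h0 (d : ℕ) : 40320 * h0 8 d = (d + 1).ascFactorial 8 := by
  rw [h0_eq_choose, Nat.ascFactorial_eq_factorial_mul_choose]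
  rfl

lemma h0_lower (d : ℕ) : (d + 1) ^ 8 ≤ 40320 * h0 8 d := by
  rw [fact_h0]
  exact Nat.pow_succ_le_ascFactorial (d + 1) 8

lemma h0_upper (d : ℕ) : 40320 * h0 8 d ≤ (d + 8) ^ 8 := by
  rw [fact_h0]
  exact Nat.ascFactorial_le_pow_add d 8

/-- the dimension of the space of cycles -/
noncomputable def kap (d p : ℕ) : ℝ := (Module.finrank ℂ (KK 8 d p) : ℝ)

lemma kap_nonneg (d p : ℕ) : 0 ≤ kap d p := Nat.cast_nonneg _

lemma h0_large {d : ℕ} (hd : 10 ≤ d) : 3000 ≤ h0 8 d := by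
  have h1 := h0_lower d
  have h2 : (10 + 1) ^ 8 ≤ (d + 1) ^ 8 := Nat.pow_le_pow_left (by omega) 8
  norm_num at h2
  omega

/-- lower bound -/
lemma D_lower {l : ℕ} (hl : 40 ≤ l) : (4 : ℝ) * (l : ℝ) ^ 4 ≤ h0 8 (2 * (2 * l)) := by
  have h1 := h0_lower (2 * (2 * l))
  have h2 : (4 * l) ^ 8 ≤ (2 * (2 * l) + 1) ^ 8 := Nat.pow_le_pow_left (by omega) 8
  have h3 : (4 * l) ^ 8 = 65536 * l ^ 4 * l ^ 4 := by ring
  have h4 : 40 ^ 4 ≤ l ^ 4 := Nat.pow_le_pow_left hl 4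
  have h5 : l ^ 4 * 40 ^ 4 ≤ l ^ 4 * l ^ 4 := Nat.mul_le_mul_left _ h4
  have h6 : 4 * l ^ 4 ≤ h0 8 (2 * (2 * l)) := by
    have h7 : 65536 * l ^ 4 * l ^ 4 = 65536 * (l ^ 4 * l ^ 4) := by ring
    norm_num at h5
    omega
  exact_mod_cast h6

/-- upper bound -/
lemma D_upper {l : ℕ} (hl : 40 ≤ l) :
    (h0 8 (2 * (2 * l)) : ℝ) ≤ 5 / 2 * ((l : ℝ) ^ 4) ^ 2 := by
  have h1 := h0_upper (2 * (2 * l))
  have h2 : (40320 : ℝ) * h0 8 (2 * (2 * l)) ≤ (4 * (l : ℝ) + 8) ^ 8 := by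
    have : ((40320 * h0 8 (2 * (2 * l)) : ℕ) : ℝ) ≤ (((2 * (2 * l) + 8) ^ 8 : ℕ) : ℝ) := by
      exact_mod_cast h1
    push_cast at this
    have e : (2 * (2 * (l : ℝ)) + 8) = 4 * l + 8 := by ring
    rw [e] at this
    exact this
  have hl' : (40 : ℝ) ≤ l := by exact_mod_cast hl
  have h3 : (4 * (l : ℝ) + 8) ^ 8 ≤ (4 * (21 / 20 * l)) ^ 8 := by
    apply pow_le_pow_left₀ (by positivity)
    linarith
  have h4 : (4 * (21 / 20 * (l : ℝ))) ^ 8 = (4 * (21 / 20)) ^ 8 * ((l : ℝ) ^ 4) ^ 2 := by ring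
  have h5 : ((4 : ℝ) * (21 / 20)) ^ 8 ≤ 40320 * (5 / 2) := by norm_num
  have h6 : (0 : ℝ) ≤ ((l : ℝ) ^ 4) ^ 2 := by positivity
  have h7 : (40320 : ℝ) * h0 8 (2 * (2 * l)) ≤ 40320 * (5 / 2) * ((l : ℝ) ^ 4) ^ 2 := by
    calc (40320 : ℝ) * h0 8 (2 * (2 * l)) ≤ (4 * (l : ℝ) + 8) ^ 8 := h2
      _ ≤ _ := h3
      _ = _ := h4
      _ ≤ _ := mul_le_mul_of_nonneg_right h5 h6
  linarith

lemma step {l : ℕ} (hl : 40 ≤ l) {p : ℕ} (hp : (h0 8 (2 * (2 * l)) : ℝ) - 1 ≤ 2 * p) :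
    kap (2 * (2 * l)) (p + 1) ≤
      (1 - 2 * (l : ℝ) ^ 4 / h0 8 (2 * (2 * l))) * kap (2 * (2 * l)) p := by
  have h1 : (((p : ℤ) + 2 - (l ^ 4 : ℕ)) * Module.finrank ℂ (KK 8 (2 * (2 * l)) (p + 1)) : ℝ) ≤
      ((h0 8 (2 * (2 * l)) : ℤ) - (4 * l ^ 4 : ℕ) + (l ^ 4 : ℕ) - p - 1) *
        Module.finrank ℂ (KK 8 (2 * (2 * l)) p) := by
    exact_mod_cast ratio8 l p
  have h2 := D_lower hl
  have hl' : (40 : ℝ) ≤ l := by exact_mod_cast hl
  have hN : (0 : ℝ) < (l : ℝ) ^ 4 := by positivity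
  push_cast at h1
  set D : ℝ := (h0 8 (2 * (2 * l)) : ℝ) with hD
  set N : ℝ := (l : ℝ) ^ 4 with hNd
  change ((p : ℝ) + 2 - N) * kap _ (p + 1) ≤ _ * kap _ p at h1
  have hx : 0 < (p : ℝ) + 2 - N := by linarith
  have hD0 : 0 < D := by linarith
  have h7 : 0 ≤ 2 * N := by linarith
  have hy : D - 4 * N + N - p - 1 ≤ (1 - 2 * N / D) * (p + 2 - N) := by
    have e2 : 2 * N / D * ((p : ℝ) + 2 - N) = (2 * N * (p + 2 - N)) / D := by ring
    have e3 : (1 - 2 * N / D) * ((p : ℝ) + 2 - N) =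
        (p + 2 - N) - (2 * N * (p + 2 - N)) / D := by
      rw [sub_mul, one_mul, e2]
    rw [e3, le_sub_iff_add_le, ← le_sub_iff_add_le', div_le_iff₀ hD0]
    have e4 : (p : ℝ) + 2 - N - (D - 4 * N + N - p - 1) = 2 * p + 3 - D + 2 * N := by ring
    rw [e4]
    have e5 : 2 * N * (p + 2 - N) ≤ 2 * N * (p + 2) := by
      apply mul_le_mul_of_nonneg_left _ h7
      linarith
    refine e5.trans ?_
    set t : ℝ := 2 * p + 1 - D with ht
    have ht0 : 0 ≤ t := by linarith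
    have e6 : (p : ℝ) = (t + D - 1) / 2 := by rw [ht]; ring
    have e7 : 2 * (p : ℝ) + 3 - D + 2 * N = t + 2 + 2 * N := by rw [ht]; ring
    rw [e7, e6]
    have h6 : 2 * N ≤ D := by linarith
    nlinarith [mul_nonneg h7 ht0, mul_nonneg ht0 hD0.le, mul_le_mul_of_nonneg_right h6 ht0]
  have h10 : ((p : ℝ) + 2 - N) * kap (2 * (2 * l)) (p + 1) ≤
      ((p : ℝ) + 2 - N) * ((1 - 2 * N / D) * kap (2 * (2 * l)) p) := by
    calc ((p : ℝ) + 2 - N) * kap (2 * (2 * l)) (p + 1)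
        ≤ (D - 4 * N + N - p - 1) * kap (2 * (2 * l)) p := h1
      _ ≤ ((1 - 2 * N / D) * (p + 2 - N)) * kap (2 * (2 * l)) p :=
          mul_le_mul_of_nonneg_right hy (kap_nonneg _ p)
      _ = _ := by ring
  exact le_of_mul_le_mul_left h10 hx

lemma frac_le {l : ℕ} (hl : 40 ≤ l) : 0 ≤ 1 - 2 * (l : ℝ) ^ 4 / h0 8 (2 * (2 * l)) := by
  have h2 := D_lower hl
  have hl' : (40 : ℝ) ≤ l := by exact_mod_cast hl
  have hN : (0 : ℝ) < (l : ℝ) ^ 4 := by positivity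
  rw [sub_nonneg, div_le_one (by linarith)]
  linarith

lemma iter {l : ℕ} (hl : 40 ≤ l) {p : ℕ} (hp : (h0 8 (2 * (2 * l)) : ℝ) - 1 ≤ 2 * p) (s : ℕ) :
    kap (2 * (2 * l)) (p + s) ≤
      (1 - 2 * (l : ℝ) ^ 4 / h0 8 (2 * (2 * l))) ^ s * kap (2 * (2 * l)) p := by
  induction s with
  | zero => simp
  | succ s ih =>
    have h1 : kap (2 * (2 * l)) (p + s + 1) ≤
        (1 - 2 * (l : ℝ) ^ 4 / h0 8 (2 * (2 * l))) * kap (2 * (2 * l)) (p + s) := by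
      apply step hl
      push_cast
      have : (0 : ℝ) ≤ s := Nat.cast_nonneg _
      linarith
    calc kap (2 * (2 * l)) (p + (s + 1)) = kap (2 * (2 * l)) (p + s + 1) := by rw [add_assoc]
      _ ≤ _ := h1
      _ ≤ (1 - 2 * (l : ℝ) ^ 4 / h0 8 (2 * (2 * l))) *
            ((1 - 2 * (l : ℝ) ^ 4 / h0 8 (2 * (2 * l))) ^ s * kap (2 * (2 * l)) p) :=
          mul_le_mul_of_nonneg_left ih (frac_le hl)
      _ = _ := by ring

/-- the number of steps -/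
noncomputable def ss (d : ℕ) : ℕ := ⌊Real.sqrt (rr 8 d) / 2⌋₊

/-- the middle exterior degree on the dual side -/
noncomputable def mid (d : ℕ) : ℕ := h0 8 d / 2

lemma rr_nonneg {d : ℕ} (hd : 10 ≤ d) : 0 ≤ rr 8 d := by
  have h1 : (3000 : ℝ) ≤ h0 8 d := by exact_mod_cast h0_large hd
  rw [rr]; linarith

lemma ss_le (d : ℕ) : (ss d : ℝ) ≤ Real.sqrt (rr 8 d) / 2 :=
  Nat.floor_le (by positivity)

lemma ss_ge (d : ℕ) : Real.sqrt (rr 8 d) / 2 < ss d + 1 := Nat.lt_floor_add_one _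

lemma step_total {l : ℕ} (hl : 40 ≤ l) :
    11 / 20 * (h0 8 (2 * (2 * l)) : ℝ) ≤ 2 * (l : ℝ) ^ 4 * ss (2 * (2 * l)) := by
  have hr := rr_nonneg (d := 2 * (2 * l)) (by omega)
  have h1 : (3000 : ℝ) ≤ h0 8 (2 * (2 * l)) := by
    exact_mod_cast h0_large (d := 2 * (2 * l)) (by omega)
  have h2 := D_upper hl
  have h3 := ss_ge (2 * (2 * l))
  set x := Real.sqrt (rr 8 (2 * (2 * l))) with hx
  have hx0 : 0 ≤ x := Real.sqrt_nonneg _
  have hx2 : x ^ 2 = h0 8 (2 * (2 * l)) - 1 := by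
    rw [hx, Real.sq_sqrt hr, rr]
  set D : ℝ := (h0 8 (2 * (2 * l)) : ℝ) with hD
  have hN : (0 : ℝ) ≤ (l : ℝ) ^ 4 := by positivity
  set N : ℝ := (l : ℝ) ^ 4 with hNd
  set s : ℝ := (ss (2 * (2 * l)) : ℝ) with hs
  have hx50 : 50 ≤ x := by
    by_contra h
    push Not at h
    nlinarith
  have h4 : 632 / 1000 * x ≤ N := by
    by_contra h
    push Not at h
    nlinarith
  have h5 : N * (x - 2) ≤ 2 * N * s := by nlinarith
  have h6 : 632 / 1000 * x * (x - 2) ≤ N * (x - 2) := by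
    apply mul_le_mul_of_nonneg_right h4
    linarith
  nlinarith

lemma decay {l : ℕ} (hl : 40 ≤ l) :
    kap (2 * (2 * l)) (mid (2 * (2 * l)) + ss (2 * (2 * l))) ≤
      Real.exp (-(11 / 20)) * kap (2 * (2 * l)) (mid (2 * (2 * l))) := by
  have hD : (0 : ℝ) < h0 8 (2 * (2 * l)) := by
    have := D_lower hl
    have hl' : (40 : ℝ) ≤ l := by exact_mod_cast hl
    have hN : (0 : ℝ) < (l : ℝ) ^ 4 := by positivity
    linarith
  have h2 : (h0 8 (2 * (2 * l)) : ℝ) - 1 ≤ 2 * (mid (2 * (2 * l)) : ℕ) := by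
    have : h0 8 (2 * (2 * l)) ≤ 2 * mid (2 * (2 * l)) + 1 := by rw [mid]; omega
    have : (h0 8 (2 * (2 * l)) : ℝ) ≤ 2 * mid (2 * (2 * l)) + 1 := by exact_mod_cast this
    linarith
  have h3 := iter hl h2 (ss (2 * (2 * l)))
  refine h3.trans (mul_le_mul_of_nonneg_right ?_ (kap_nonneg _ _))
  set y : ℝ := 2 * (l : ℝ) ^ 4 / h0 8 (2 * (2 * l)) with hy
  have h4 : 1 - y ≤ Real.exp (-y) := by
    have := Real.add_one_le_exp (-y)
    linarith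
  have h5 : 0 ≤ 1 - y := frac_le hl
  calc (1 - y) ^ ss (2 * (2 * l)) ≤ Real.exp (-y) ^ ss (2 * (2 * l)) :=
        pow_le_pow_left₀ h5 h4 _
    _ = Real.exp (ss (2 * (2 * l)) * (-y)) := by rw [← Real.exp_nat_mul]
    _ ≤ Real.exp (-(11 / 20)) := by
        apply Real.exp_le_exp.mpr
        have h6 := step_total hl
        have h7 : 11 / 20 ≤ (2 * (l : ℝ) ^ 4 * ss (2 * (2 * l))) / h0 8 (2 * (2 * l)) := by
          rw [le_div_iff₀ hD]
          exact h6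
        have h8 : (ss (2 * (2 * l)) : ℝ) * (-y) =
            -((2 * (l : ℝ) ^ 4 * ss (2 * (2 * l))) / h0 8 (2 * (2 * l))) := by
          rw [hy]; ring
        rw [h8]
        linarith

lemma room {d : ℕ} (hd : 10 ≤ d) : mid d + ss d + 9 ≤ h0 8 d := by
  have h1' : 3000 ≤ h0 8 d := h0_large hd
  have h1 : (3000 : ℝ) ≤ h0 8 d := by exact_mod_cast h1'
  have hr := rr_nonneg hd
  have h2 := ss_le d
  have h3 : (ss d : ℝ) ^ 2 ≤ rr 8 d := by
    calc (ss d : ℝ) ^ 2 ≤ Real.sqrt (rr 8 d) ^ 2 := by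
          refine pow_le_pow_left₀ (Nat.cast_nonneg _) ?_ 2
          have := Real.sqrt_nonneg (rr 8 d)
          linarith
      _ = rr 8 d := Real.sq_sqrt hr
  have h4 : (ss d : ℝ) ^ 2 ≤ h0 8 d := by
    rw [rr] at h3
    linarith
  have h5 : ss d ^ 2 ≤ h0 8 d := by exact_mod_cast h4
  rw [mid]
  by_cases h6 : ss d ≤ 7
  · omega
  · have h7 : 7 * ss d ≤ ss d ^ 2 := by
      rw [sq]
      exact Nat.mul_le_mul_right _ (by omega)
    omega

lemma k0 {d : ℕ} (hd : 10 ≤ d) : (kpq 8 d (h0 8 d - 9 - mid d) 8 : ℝ) = kap d (mid d) := by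
  have h := room hd
  have h1 := kpq_eq_KK (n := 8) (d := d) (p := h0 8 d - 9 - mid d) (p' := mid d) (by omega)
  rw [kap, ← h1]
  rfl

lemma k1 {d : ℕ} (hd : 10 ≤ d) :
    (kpq 8 d (h0 8 d - 9 - mid d - ss d) 8 : ℝ) = kap d (mid d + ss d) := by
  have h := room hd
  have h1 := kpq_eq_KK (n := 8) (d := d) (p := h0 8 d - 9 - mid d - ss d)
    (p' := mid d + ss d) (by omega)
  rw [kap, ← h1]
  rfl

end Pool.Agent.W474.Ver
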