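import Mathlib
import Pool.Agent.W474.Ver.Ident

/-!
Sanity checks on the definitions: the Koszul differential squares to zero, it maps the spaces of
chains into each other, boundaries are cycles, and all the spaces are finite-dimensional.
-/

namespace Pool.Agent.W474.Ver

open MvPolynomial Finset
open Pool.Agent.H940R2 (sg DK DK_DK DK_apply)

variable {n d : ℕ}

/-- The Koszul differential squares to zero. -/
theorem kosz_kosz (f : Finset (Fin (h0 n d)) → Poly n) : kosz n d (kosz n d f) = 0 := by
  apply TT_inj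
  rw [map_zero]
  funext x
  obtain ⟨G, u⟩ := x
  have h1 := DK_TT (kosz n d f) G u
  have h2 : DK ℂ (exd n d) (TT n d (kosz n d f)) (G, u) =
      DK ℂ (exd n d) (DK ℂ (exd n d) (TT n d f)) (G, u) := by
    rw [DK_apply, DK_apply]
    refine Finset.sum_congr rfl fun b _ => ?_
    rw [DK_TT f]
  rw [h2, DK_DK] at h1
  exact h1.symm

/-- The differential maps `Λ^{p+1} V_d ⊗ H⁰(m d)` to `Λ^p V_d ⊗ H⁰((m+1) d)`. -/
theorem kosz_mem {p : ℕ} {m : ℤ} {f : Finset (Fin (h0 n d)) → Poly n}
    (hf : f ∈ chains n d (p + 1) m) : kosz n d f ∈ chains n d p (m + 1) := by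
  refine ⟨fun F => ?_, fun F hF => kosz_card hf.2 F hF⟩
  by_cases hF : F.card = p
  · have h1 := kosz_Sec (fun F => chains_Sec hf F) F
    rw [hF] at h1
    have e : (((p + 1 : ℕ) : ℤ) + m - p) = m + 1 := by push_cast; ring
    rwa [e] at h1
  · rw [kosz_card hf.2 F hF]
    exact Submodule.zero_mem _

/-- Boundaries are cycles. -/
theorem bdy_le_cyc (n d p : ℕ) (q : ℤ) : bdy n d p q ≤ cyc n d p q := by
  rintro _ ⟨f, hf, rfl⟩
  refine ⟨?_, LinearMap.mem_ker.mpr (kosz_kosz f)⟩
  have h1 := kosz_mem hf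
  rwa [sub_add_cancel] at h1

/-- `H⁰(ℙⁿ, 𝒪(e))` is finite-dimensional. -/
theorem Sec_finite (n : ℕ) (e : ℤ) : FiniteDimensional ℂ (Sec n e) := by
  classical
  let N : Fin (n + 1) →₀ ℕ := Finsupp.equivFunOnFinite.symm (fun _ => e.toNat)
  have h : Sec n e ≤ Submodule.span ℂ
      (((Finset.Iic N).image (fun u => (monomial u (1 : ℂ) : Poly n)) : Finset (Poly n)) :
        Set (Poly n)) := by
    intro f hf
    rw [← f.support_sum_monomial_coeff]
    refine Submodule.sum_mem _ fun u hu => ?_
    have h1 := hf u (by simpa [mem_support_iff] using hu)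
    have e : monomial u (coeff u f) = (coeff u f) • (monomial u (1 : ℂ) : Poly n) := by
      rw [smul_monomial, smul_eq_mul, mul_one]
    rw [e]
    refine Submodule.smul_mem _ _ (Submodule.subset_span ?_)
    rw [Finset.coe_image]
    refine ⟨u, ?_, rfl⟩
    rw [Finset.mem_coe, Finset.mem_Iic]
    intro c
    change u c ≤ Int.toNat _
    have := Finset.single_le_sum (f := fun a => ((u a : ℕ) : ℤ))
      (fun _ _ => Int.natCast_nonneg _) (Finset.mem_univ c)
    rw [h1] at this
    omega
  exact Submodule.finiteDimensional_of_le h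

/-- `Λ^p V_d ⊗ H⁰(ℙⁿ, 𝒪(m d))` is finite-dimensional. -/
theorem chains_finite (n d p : ℕ) (m : ℤ) : FiniteDimensional ℂ (chains n d p m) := by
  have := Sec_finite n (m * d)
  let Φ : chains n d p m →ₗ[ℂ] (Finset (Fin (h0 n d)) → Sec n (m * d)) :=
    { toFun := fun f B => ⟨f.1 B, f.2.1 B⟩
      map_add' := fun _ _ => rfl
      map_smul' := fun _ _ => rfl }
  refine FiniteDimensional.of_injective Φ ?_
  intro f g h
  apply Subtype.ext
  funext B
  exact congrArg Subtype.val (congrFun h B)

/-- The space of cycles, hence also `K_{p,q}`, is finite-dimensional. -/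
theorem cyc_finite (n d p : ℕ) (q : ℤ) : FiniteDimensional ℂ (cyc n d p q) := by
  have := chains_finite n d p q
  exact Submodule.finiteDimensional_of_le inf_le_left

end Pool.Agent.W474.Ver
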